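import Mathlib

set_option autoImplicit false

namespace Pool.Agent.P.MP_358d01_co.H5

open Real

lemma log_ge_quad {x : ℝ} (hx : -(1 / 2) ≤ x) : x - 2 * x ^ 2 ≤ log (1 + x) := by
  have h1 : 0 < 1 + x := by linarith
  have h := Real.one_sub_inv_le_log_of_pos h1
  refine le_trans ?_ h
  have : (1 + x)⁻¹ ≤ 1 - x + 2 * x ^ 2 := by
    rw [inv_eq_one_div, div_le_iff₀ h1]
    nlinarith [sq_nonneg x, mul_nonneg (sq_nonneg x) (show 0 ≤ x + 1 / 2 by linarith)]
  linarith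

lemma poly_ineq {a b c e z u : ℝ} (ha : 0 ≤ a) (hb : 0 ≤ b) (hc : 0 ≤ c) (he : 0 ≤ e) (hz : 0 ≤ z)
    (hs : a + b + c + e + z = 1) (hm : a + e ≤ b + c) (hu : 0 < u) (hu' : u ≤ 1 / 768) :
    ∃ p : ℝ, 0 ≤ p ∧ p ≤ 1 / 4 ∧
      0 ≤ -2 * u ^ 2 * (e - a) - 16 * u ^ 4 * (a + e) + 12 * u * (2 * p * (e - a) - 8 * p ^ 2 * (a + e))
        + 12 * u * u ^ 2 * (a * b + c * e) + z * (1 - 60 * u) := by
  have hu2 : u ^ 2 ≤ u / 768 := by nlinarith
  have hu2' : 0 < u ^ 2 := by positivity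
  have hu4 : u ^ 4 ≤ u ^ 2 / 16 := by nlinarith
  have hu4' : 0 < u ^ 4 := by positivity
  have hab : 0 ≤ 12 * u * u ^ 2 * (a * b + c * e) := by positivity
  have hz' : 0 ≤ z * (1 - 60 * u) := mul_nonneg hz (by linarith)
  by_cases h1 : 1 / 2 ≤ z
  · refine ⟨0, le_rfl, by norm_num, ?_⟩
    have : 2 * u ^ 2 * (e - a) ≤ 2 * u ^ 2 * 1 := by gcongr; linarith
    have : 16 * u ^ 4 * (a + e) ≤ 16 * u ^ 4 * 1 := by gcongr; linarith
    have : 1 / 2 * (1 / 2) ≤ z * (1 - 60 * u) := by gcongr; linarith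
    nlinarith
  by_cases h2 : e - a ≤ -(a + e) / 2
  · refine ⟨0, le_rfl, by norm_num, ?_⟩
    have : u ^ 2 * (a + e) ≤ -2 * u ^ 2 * (e - a) := by nlinarith
    have : 16 * u ^ 4 * (a + e) ≤ 16 * (u ^ 2 / 16) * (a + e) := by gcongr
    nlinarith
  by_cases h3 : (a + e) / 2 ≤ e - a
  · refine ⟨1 / 16, by norm_num, by norm_num, ?_⟩
    have : 16 * u ^ 4 * (a + e) ≤ 16 * (u ^ 2 / 16) * (a + e) := by gcongr
    have : 2 * u ^ 2 * (e - a) ≤ 2 * u ^ 2 * (a + e) := by gcongr; linarith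
    have : 3 * u ^ 2 * (a + e) ≤ 3 * (u / 768) * (a + e) := by gcongr
    have : 12 * u * ((a + e) / 32) ≤ 12 * u * (2 * (1 / 16) * (e - a) - 8 * (1 / 16) ^ 2 * (a + e)) := by
      gcongr; linarith
    have : 0 ≤ u * (a + e) := by positivity
    nlinarith
  · refine ⟨u / 12, by positivity, by linarith, ?_⟩
    have h4 : (a + e) / 4 ≤ a := by linarith
    have h5 : (a + e) / 4 ≤ e := by linarith
    have h6 : (a + e) / 16 ≤ a * b + c * e := by
      have : (a + e) / 4 * b ≤ a * b := by gcongr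
      have : (a + e) / 4 * c ≤ e * c := by gcongr
      have : (a + e) / 4 * (1 / 4) ≤ (a + e) / 4 * (b + c) := by gcongr; linarith
      nlinarith
    have h7 : 12 * u * u ^ 2 * ((a + e) / 16) ≤ 12 * u * u ^ 2 * (a * b + c * e) := by gcongr
    have h8 : 16 * u ^ 4 * (a + e) ≤ u ^ 3 / 48 * (a + e) := by
      gcongr; nlinarith [pow_pos hu 3]
    have : 0 ≤ u ^ 3 * (a + e) := by positivity
    nlinarith

lemma local_ineq {a b c e zL zR u : ℝ} (ha : 0 ≤ a) (hb : 0 ≤ b) (hc : 0 ≤ c) (he : 0 ≤ e)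
    (hzL : 0 ≤ zL) (hzR : 0 ≤ zR) (hs : a + b + zL + (c + e + zR) = 1) (hm : a + e ≤ b + c)
    (hu : 0 < u) (hu' : u ≤ 1 / 768) :
    ∃ t p : ℝ, |t| ≤ 1 / 16 ∧ 0 ≤ p ∧ p ≤ 1 / 4 ∧
      0 ≤ a * log (1 + (2 * u ^ 2 + 2 * t)) + b * log (1 + 2 * t) + c * log (1 + -(2 * t))
        + e * log (1 + -(2 * u ^ 2 + 2 * t)) + (zL + zR)
        + 12 * u * ((a + zL) * log (1 + -(2 * p)) + e * log (1 + 2 * p))
        + 12 * u * u ^ 2 * (a * b + c * e)
        + 24 * u * ((a + b + zL) * (1 - 2 * (a + b + zL)) + (c + e + zR) * (1 - 2 * (c + e + zR))) := by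
  obtain ⟨p, hp0, hp1, hp⟩ := poly_ineq ha hb hc he (add_nonneg hzL hzR) (by linarith) hm hu hu'
  obtain ⟨g, hg⟩ : ∃ g, g = a + b - c - e := ⟨_, rfl⟩
  have hg1 : |g| ≤ 1 := abs_le.2 ⟨by linarith, by linarith⟩
  have hg2 := abs_le.1 hg1
  have hu2 : u ^ 2 ≤ 1 / 16 := by nlinarith
  have hu2' : 0 < u ^ 2 := by positivity
  refine ⟨g / 16, p, by rw [abs_div]; norm_num; linarith, hp0, hp1, ?_⟩
  have l1 := mul_le_mul_of_nonneg_left (log_ge_quad (x := 2 * u ^ 2 + 2 * (g / 16)) (by linarith)) ha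
  have l2 := mul_le_mul_of_nonneg_left (log_ge_quad (x := 2 * (g / 16)) (by linarith)) hb
  have l3 := mul_le_mul_of_nonneg_left (log_ge_quad (x := -(2 * (g / 16))) (by linarith)) hc
  have l4 := mul_le_mul_of_nonneg_left
    (log_ge_quad (x := -(2 * u ^ 2 + 2 * (g / 16))) (by linarith)) he
  have l5 := log_ge_quad (x := -(2 * p)) (by linarith)
  have l5a := mul_le_mul_of_nonneg_left l5 ha
  have l5z : -zL ≤ zL * log (1 + -(2 * p)) := by
    have h1 : -1 ≤ -(2 * p) - 2 * (-(2 * p)) ^ 2 := by nlinarith only [hp0, hp1]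
    have := mul_le_mul_of_nonneg_left (h1.trans l5) hzL
    linarith
  have l6 := mul_le_mul_of_nonneg_left (log_ge_quad (x := 2 * p) (by linarith)) he
  have m1 : -2 * u ^ 2 * (e - a) - 16 * u ^ 4 * (a + e) + g ^ 2 / 16 ≤
      a * log (1 + (2 * u ^ 2 + 2 * (g / 16))) + b * log (1 + 2 * (g / 16))
        + c * log (1 + -(2 * (g / 16))) + e * log (1 + -(2 * u ^ 2 + 2 * (g / 16))) := by
    have k1 : (a + e) * (2 * (2 * u ^ 2 + 2 * (g / 16)) ^ 2) ≤ (a + e) * (16 * u ^ 4 + g ^ 2 / 16) := by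
      gcongr; nlinarith only [sq_nonneg (2 * u ^ 2 - 2 * (g / 16))]
    have k2 : (b + c) * (2 * (2 * (g / 16)) ^ 2) ≤ (b + c) * (g ^ 2 / 16) := by
      gcongr; nlinarith only [sq_nonneg g]
    have k3 : (a + e + (b + c)) * (g ^ 2 / 16) ≤ 1 * (g ^ 2 / 16) := by gcongr; linarith
    have k4 : a * (2 * (g / 16)) + b * (2 * (g / 16)) - c * (2 * (g / 16)) - e * (2 * (g / 16))
      = g ^ 2 / 8 := by rw [hg]; ring
    linarith
  have m2 : 12 * u * (2 * p * (e - a) - 8 * p ^ 2 * (a + e) - (zL + zR)) ≤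
      12 * u * ((a + zL) * log (1 + -(2 * p)) + e * log (1 + 2 * p)) := by
    gcongr; linarith
  have m3 : 24 * u * (-(2 * g ^ 2) - 2 * (zL + zR)) ≤
      24 * u * ((a + b + zL) * (1 - 2 * (a + b + zL)) + (c + e + zR) * (1 - 2 * (c + e + zR))) := by
    gcongr
    have : (a + b + zL) * (1 - 2 * (a + b + zL)) + (c + e + zR) * (1 - 2 * (c + e + zR))
        = -(g + (zL - zR)) ^ 2 := by
      have : c + e + zR = 1 - (a + b + zL) := by linarith
      have h2 : g + (zL - zR) = (a + b + zL) - (c + e + zR) := by rw [hg]; ring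
      rw [h2, this]; ring
    rw [this]
    have h3 : zL + zR ≤ 1 := by linarith
    have : (zL - zR) ^ 2 ≤ zL + zR := by nlinarith only [mul_nonneg hzL hzR, h3, hzL, hzR]
    nlinarith only [sq_nonneg (g - (zL - zR)), this]
  have m4 : 48 * u * g ^ 2 ≤ g ^ 2 / 16 := by nlinarith only [sq_nonneg g, hu']
  linarith

lemma log_mix {b A B : ℝ} (hb : 0 ≤ b) (hb' : b ≤ 1) (hA : 0 < A) (hB : 0 < B) :
    (1 - b) * log A + b * log B ≤ log ((1 - b) * A + b * B) := by
  have := strictConcaveOn_log_Ioi.concaveOn.2 (Set.mem_Ioi.2 hA) (Set.mem_Ioi.2 hB)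
    (sub_nonneg.2 hb') hb (by ring)
  simpa using this

lemma item_one {k r y Y f0 g0 g1 n0 n1 N w : ℝ} (hk : 0 ≤ k) (hr : 0 < r) (hy : 0 < y) (hY : 0 < Y)
    (hf0 : 0 < f0) (hg0 : 0 < g0) (hg1 : 0 ≤ g1) (hn0 : 0 < n0) (hn1 : 0 ≤ n1) (hN : N = n0 + n1)
    (hw : w ≤ n1 / N) :
    log f0 + k * log g0 - 2 * k * log (r / n0) + (log (2 * y) + k * log (2 * Y) + k * w
      + 2 * k * (1 - 2 * N)) ≤
    log (y * f0) + k * log (Y * (n0 / N * g0 + n1 / N * g1)) - 2 * k * log r + (1 - k) * log 2 := by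
  have hN0 : 0 < N := by linarith
  have h1 : log (Y * (n0 / N * g0)) ≤ log (Y * (n0 / N * g0 + n1 / N * g1)) := by
    apply log_le_log (by positivity)
    gcongr
    have : 0 ≤ n1 / N * g1 := by positivity
    linarith
  rw [log_mul hY.ne' (by positivity), log_mul (by positivity) hg0.ne', log_div hn0.ne' hN0.ne'] at h1
  rw [log_mul hy.ne' hf0.ne', log_div hr.ne' hn0.ne', log_mul two_ne_zero hy.ne',
    log_mul two_ne_zero hY.ne']
  have h2 : log (n0 / N) ≤ n0 / N - 1 := log_le_sub_one_of_pos (by positivity)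
  have h3 : n0 / N - 1 = -(n1 / N) := by field_simp; linarith
  rw [log_div hn0.ne' hN0.ne'] at h2
  have h4 : log (2 * N) ≤ 2 * N - 1 := log_le_sub_one_of_pos (by positivity)
  rw [log_mul two_ne_zero hN0.ne'] at h4
  have h5 := mul_le_mul_of_nonneg_left h1 hk
  have h6 := mul_le_mul_of_nonneg_left (show log n0 - log N ≤ -w by linarith) hk
  have h7 := mul_le_mul_of_nonneg_left h4 hk
  linarith

lemma item_two {k r y q b Y f0 f1 g0 g1 n0 n1 N : ℝ} (hk : 0 ≤ k) (hr : 0 < r) (hy : 0 < y)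
    (hq : 0 < q) (hb : b = q / (q + y)) (hY : 0 < Y) (hf0 : 0 < f0) (hf1 : 0 < f1) (hg0 : 0 < g0)
    (hg1 : 0 < g1) (hn0 : 0 < n0) (hn1 : 0 < n1) (hN : N = n0 + n1) :
    (1 - b) * (log f0 + k * log g0 - 2 * k * log (r * (1 - b) / n0))
      + b * (log f1 + k * log g1 - 2 * k * log (r * b / n1))
      + (log (2 * (q + y)) + k * log (2 * Y) + 2 * k * (1 - 2 * N)) ≤
    log (y * f0 + q * f1) + k * log (Y * (n0 / N * g0 + n1 / N * g1)) - 2 * k * log r
      + (1 - k) * log 2 := by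
  have hN0 : 0 < N := by linarith
  have hb0 : 0 < b := by rw [hb]; positivity
  have hb1 : 0 < 1 - b := by
    have : 1 - b = y / (q + y) := by rw [hb]; field_simp; ring
    rw [this]; positivity
  have h1 : log (y * f0 + q * f1) = log (q + y) + log ((1 - b) * f0 + b * f1) := by
    rw [← log_mul (by positivity) (by positivity)]
    congr 1; rw [hb]; field_simp; ring
  have h2 := log_mix hb0.le (by linarith) hf0 hf1
  have h3 := log_mix hb0.le (by linarith) (show 0 < n0 / N * g0 / (1 - b) by positivity)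
    (show 0 < n1 / N * g1 / b by positivity)
  have h4 : (1 - b) * (n0 / N * g0 / (1 - b)) + b * (n1 / N * g1 / b) = n0 / N * g0 + n1 / N * g1 := by
    field_simp
  rw [h4, log_div (by positivity) hb1.ne', log_div (by positivity) hb0.ne',
    log_mul (by positivity) hg0.ne', log_mul (by positivity) hg1.ne', log_div hn0.ne' hN0.ne',
    log_div hn1.ne' hN0.ne'] at h3
  rw [h1, log_mul hY.ne' (by positivity), log_div (by positivity) hn0.ne',
    log_div (by positivity) hn1.ne', log_mul hr.ne' hb1.ne', log_mul hr.ne' hb0.ne',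
    log_mul two_ne_zero (by positivity), log_mul two_ne_zero hY.ne']
  have a0 : log (n0 / N / (1 - b)) ≤ n0 / N / (1 - b) - 1 := log_le_sub_one_of_pos (by positivity)
  have a1 : log (n1 / N / b) ≤ n1 / N / b - 1 := log_le_sub_one_of_pos (by positivity)
  rw [log_div (by positivity) hb1.ne', log_div hn0.ne' hN0.ne'] at a0
  rw [log_div (by positivity) hb0.ne', log_div hn1.ne' hN0.ne'] at a1
  have a2 : (1 - b) * (n0 / N / (1 - b) - 1) + b * (n1 / N / b - 1) = 0 := by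
    field_simp; linarith
  have a3 : (1 - b) * (log n0 - log N - log (1 - b)) + b * (log n1 - log N - log b) ≤ 0 := by
    have := mul_le_mul_of_nonneg_left a0 hb1.le
    have := mul_le_mul_of_nonneg_left a1 hb0.le
    linarith
  have h5 : log (2 * N) ≤ 2 * N - 1 := log_le_sub_one_of_pos (by positivity)
  rw [log_mul two_ne_zero hN0.ne'] at h5
  have h6 := mul_le_mul_of_nonneg_left h3 hk
  have h7 := mul_le_mul_of_nonneg_left h5 hk
  have h8 := mul_le_mul_of_nonneg_left a3 hk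
  linarith

end Pool.Agent.P.MP_358d01_co.H5
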