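import Pool.Agent.P.MP_358d01_co.H5.Dom
import Pool.Agent.P.MP_358d01_co.H5.Local

set_option autoImplicit false

namespace Pool.Agent.P.MP_358d01_co.H5

open Finset Real

variable {m : ℕ} {ι : Type} [Fintype ι]

/-- number of zero signs at levels `≥ i`. -/
def zc (i : ℕ) (s : Fin m → SignType) : ℕ := (univ.filter fun j : Fin m => i ≤ (j : ℕ) ∧ s j = 0).card

lemma zc_succ (i : Fin m) (s : Fin m → SignType) :
    (zc i s : ℝ) = zc ((i : ℕ) + 1) s + if s i = 0 then 1 else 0 := by
  unfold zc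
  rw [card_filter, card_filter]
  push_cast
  have : (if s i = 0 then (1 : ℝ) else 0) = ∑ j : Fin m, if j = i then (if s i = 0 then 1 else 0) else 0 := by
    simp
  rw [this, ← sum_add_distrib]
  refine sum_congr rfl fun j _ => ?_
  by_cases hj : j = i
  · subst hj; simp
  · have : (j : ℕ) ≠ i := fun h => hj (Fin.ext h)
    have e : (i : ℕ) ≤ j ↔ (i : ℕ) + 1 ≤ j := by omega
    simp only [hj, if_false, add_zero, e]

/-- the potential of one item. -/
noncomputable def Ex (k C : ℝ) (h : ℝ) (z : ℝ) (r P f f' : ℝ) : ℝ :=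
  log f + k * log f' - 2 * k * log (r / P) + (1 - k) * h * log 2 + C * z

/-- the inductive statement at level `i`. -/
def Claim (σ : ι → Fin m → Bool) (st : ι → Fin m → SignType) (k C : ℝ) (i : ℕ) : Prop :=
  ∀ (v : Fin m → Bool) (ρ : ι → ℝ), (∀ g, 0 ≤ ρ g) → (∀ g, 0 < ρ g → Ext i v (σ g)) →
    ∃ f f' : ι → ℝ, (∀ g, 0 ≤ f g) ∧ (∀ g, 0 ≤ f' g) ∧ (∀ g, 0 < ρ g → 0 < f g ∧ 0 < f' g) ∧
      Dom (fun Y g => Act i Y (σ g) (st g)) i v f ∧ Dom (fun Y g => Sh Y (σ g) (st g)) i v f' ∧
      0 ≤ ∑ g, ρ g * Ex k C ((m : ℝ) - i) (zc i (st g)) (ρ g) (∑ g, ρ g) (f g) (f' g)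

lemma claim_top (σ : ι → Fin m → Bool) (st : ι → Fin m → SignType) {k C : ℝ} (hk : 0 ≤ k) :
    Claim σ st k C m := by
  classical
  intro v ρ h0 h1
  have hb : ∀ j, ¬ Br {v} v j := by
    rintro j ⟨w, hw, -, h⟩
    exact h (by rw [Set.mem_singleton_iff.1 hw])
  refine ⟨fun g => if σ g = v then 1 else 0, fun g => if σ g = v then 1 else 0,
    fun g => by positivity, fun g => by positivity, fun g hg => ?_, ?_, ?_, ?_⟩
  · have : σ g = v := funext fun j => h1 g hg j j.2
    simp [this]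
  · intro lam hl
    refine ⟨{v}, by simp, fun w hw j _ => by rw [Set.mem_singleton_iff.1 hw], ?_⟩
    refine sum_le_sum fun g _ => ?_
    by_cases hg : σ g = v
    · have : Act m {v} (σ g) (st g) :=
        ⟨hg, fun j => ⟨fun h => absurd (hg ▸ h) (hb j), fun h => absurd j.2 (by omega)⟩⟩
      simp [hg ▸ this, hg]
    · simp only [hg, if_false, mul_zero]; split_ifs; exacts [hl g, le_rfl]
  · intro lam hl
    refine ⟨{v}, by simp, fun w hw j _ => by rw [Set.mem_singleton_iff.1 hw], ?_⟩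
    refine sum_le_sum fun g _ => ?_
    by_cases hg : σ g = v
    · have : Sh {v} (σ g) (st g) := ⟨hg, fun j h => absurd (hg ▸ h) (hb j)⟩
      simp [hg ▸ this, hg]
    · simp only [hg, if_false, mul_zero]; split_ifs; exacts [hl g, le_rfl]
  · refine sum_nonneg fun g _ => ?_
    rcases (h0 g).eq_or_lt with h | h
    · rw [← h, zero_mul]
    have hg : σ g = v := funext fun j => h1 g h j j.2
    have hz : zc m (st g) = 0 := by
      unfold zc; rw [card_eq_zero, filter_eq_empty_iff]
      intro j _ h; exact absurd j.2 (by omega)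
    have hle : ρ g ≤ ∑ g, ρ g := single_le_sum (fun g _ => h0 g) (mem_univ g)
    have : log (ρ g / ∑ g, ρ g) ≤ 0 :=
      log_nonpos (div_nonneg h.le (by linarith)) (div_le_one_of_le₀ hle (by linarith))
    apply mul_nonneg h.le
    simp only [Ex, hg, if_true, log_one, hz, sub_self]
    nlinarith

/-- mass of a class. -/
noncomputable def mass (side : ι → Bool) (sg : ι → SignType) (ρ : ι → ℝ) (s : Bool) (w : SignType) : ℝ :=
  ∑ g, if side g = s ∧ sg g = w then ρ g else 0

lemma mass_nonneg (side : ι → Bool) (sg : ι → SignType) {ρ : ι → ℝ} (h : ∀ g, 0 ≤ ρ g) (s : Bool)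
    (w : SignType) : 0 ≤ mass side sg ρ s w :=
  sum_nonneg fun g _ => by split_ifs; exacts [h g, le_rfl]

lemma sum_class (side : ι → Bool) (sg : ι → SignType) (ρ : ι → ℝ) (ψ : Bool → SignType → ℝ) (L : Bool) :
    ∑ g, ρ g * ψ (side g) (sg g) = mass side sg ρ L 1 * ψ L 1 + mass side sg ρ L (-1) * ψ L (-1)
      + mass side sg ρ L 0 * ψ L 0 + (mass side sg ρ (!L) 1 * ψ (!L) 1
      + mass side sg ρ (!L) (-1) * ψ (!L) (-1) + mass side sg ρ (!L) 0 * ψ (!L) 0) := by
  simp only [mass, sum_mul, ← sum_add_distrib]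
  refine sum_congr rfl fun g _ => ?_
  cases L <;> cases side g <;> cases sg g <;> simp

/-- the gain of one level. -/
noncomputable def psi (k C q p : ℝ) (y y' : Bool → ℝ) (A N : Bool → ℝ) (s : Bool) (w : SignType) : ℝ :=
  log (2 * (if w = 1 then q + y s else if w = 0 then q else y s))
    + k * log (2 * (if w = -1 then y' s + p else y' s)) + k * (if w = -1 then q * A s else 0)
    + 2 * k * (1 - 2 * N s) + (if w = 0 then C else 0)

lemma step_core {σ : ι → Fin m → Bool} {st : ι → Fin m → SignType} {k C : ℝ} (hk : 0 ≤ k) {i : Fin m}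
    (ih : Claim σ st k C ((i : ℕ) + 1)) (v : Fin m → Bool) (ρ : ι → ℝ) (h0 : ∀ g, 0 ≤ ρ g)
    (h1 : ∀ g, 0 < ρ g → Ext i v (σ g)) (hP : ∑ g, ρ g = 1) {q p : ℝ} {y y' : Bool → ℝ}
    (hq : 0 < q) (hy : ∀ s, 0 < y s) (hys : y false + y true + q ≤ 1) (hp : 0 ≤ p)
    (hy' : ∀ s, 0 < y' s) (hys' : y' false + y' true + p ≤ 1) :
    ∃ f f' : ι → ℝ, (∀ g, 0 ≤ f g) ∧ (∀ g, 0 ≤ f' g) ∧ (∀ g, 0 < ρ g → 0 < f g ∧ 0 < f' g) ∧
      Dom (fun Y g => Act i Y (σ g) (st g)) i v f ∧ Dom (fun Y g => Sh Y (σ g) (st g)) i v f' ∧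
      ∑ g, ρ g * psi k C q p y y' (fun s => mass (fun g => σ g i) (fun g => st g i) ρ s 1)
        (fun s => ∑ g, if σ g i = s then ρ g else 0) (σ g i) (st g i) ≤
      ∑ g, ρ g * Ex k C ((m : ℝ) - i) (zc i (st g)) (ρ g) 1 (f g) (f' g) := by
  classical
  have hqy : ∀ s, q + y s ≤ 1 := fun s => by cases s <;> linarith [hy false, hy true]
  obtain ⟨β, hβ⟩ : ∃ β : ι → ℝ, ∀ g, β g =
    if st g i = 1 then q / (q + y (σ g i)) else if st g i = 0 then 1 else 0 := ⟨_, fun _ => rfl⟩
  have hβ0 : ∀ g, 0 ≤ β g := fun g => by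
    rw [hβ]; have := hy (σ g i); split_ifs <;> positivity
  have hβ1 : ∀ g, β g ≤ 1 := fun g => by
    rw [hβ]; have := hy (σ g i); split_ifs
    · exact div_le_one_of_le₀ (by linarith) (by positivity)
    · exact le_rfl
    · exact zero_le_one
  obtain ⟨r, hr⟩ : ∃ r : Bool → Bool → ι → ℝ, ∀ s B g, r s B g =
    if σ g i = s then ρ g * (if B then β g else 1 - β g) else 0 := ⟨_, fun _ _ _ => rfl⟩
  have hr0 : ∀ s B g, 0 ≤ r s B g := fun s B g => by
    rw [hr]; have := h0 g; have := hβ0 g; have := sub_nonneg.2 (hβ1 g)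
    split_ifs <;> positivity
  have hr1 : ∀ s B g, 0 < r s B g → Ext ((i : ℕ) + 1) (Function.update v i s) (σ g) := by
    intro s B g h
    rw [hr] at h
    by_cases hs : σ g i = s
    · rw [if_pos hs] at h
      rw [← hs]
      exact (h1 g (lt_of_le_of_ne (h0 g) fun e => by rw [← e] at h; simp at h)).update
    · simp [hs] at h
  choose F G F0 G0 FG DF DG IH using fun s B => ih (Function.update v i s) (r s B) (hr0 s B) (hr1 s B)
  obtain ⟨n, hn⟩ : ∃ n : Bool → Bool → ℝ, ∀ s B, n s B = ∑ g, r s B g := ⟨_, fun _ _ => rfl⟩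
  obtain ⟨N, hN⟩ : ∃ N : Bool → ℝ, ∀ s, N s = ∑ g, if σ g i = s then ρ g else 0 := ⟨_, fun _ => rfl⟩
  have hn0 : ∀ s B, 0 ≤ n s B := fun s B => by rw [hn]; exact sum_nonneg fun g _ => hr0 s B g
  have hnr : ∀ s B g, r s B g ≤ n s B := fun s B g => by
    rw [hn]; exact single_le_sum (fun g _ => hr0 s B g) (mem_univ g)
  have hNn : ∀ s, N s = n s false + n s true := fun s => by
    rw [hN, hn, hn, ← sum_add_distrib]
    refine sum_congr rfl fun g _ => ?_
    rw [hr, hr]
    by_cases h : σ g i = s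
    · simp only [h, if_true, Bool.false_eq_true, if_false]; ring
    · simp only [h, if_false, add_zero]
  have hN1 : ∀ s, N s ≤ 1 := fun s => by
    rw [hN, ← hP]; exact sum_le_sum fun g _ => by split_ifs; exacts [le_rfl, h0 g]
  have hA : ∀ s, q * mass (fun g => σ g i) (fun g => st g i) ρ s 1 ≤ n s true / N s := by
    intro s
    have e1 : q * mass (fun g => σ g i) (fun g => st g i) ρ s 1 ≤ n s true := by
      rw [hn, mass, mul_sum]
      refine sum_le_sum fun g _ => ?_
      by_cases hg : σ g i = s ∧ st g i = 1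
      · rw [if_pos hg, hr, if_pos hg.1, if_pos rfl, hβ, if_pos hg.2, mul_comm]
        apply mul_le_mul_of_nonneg_left _ (h0 g)
        rw [le_div_iff₀ (by linarith [hy (σ g i)])]
        exact mul_le_of_le_one_right hq.le (hqy _)
      · rw [if_neg hg, mul_zero]; exact hr0 _ _ _
    refine e1.trans ?_
    rcases (hn0 s true).eq_or_lt with h | h
    · rw [← h]; simp
    · have : 0 < N s := by linarith [hNn s, hn0 s false]
      rw [le_div_iff₀ this]
      exact mul_le_of_le_one_right h.le (hN1 s)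
  obtain ⟨H, hH⟩ : ∃ H : Bool → ι → ℝ, ∀ s, H s =
    fun g => n s false / N s * G s false g + n s true / N s * G s true g := ⟨_, fun _ => rfl⟩
  have hN0 : ∀ s, 0 ≤ N s := fun s => by linarith [hNn s, hn0 s false, hn0 s true]
  have DH : ∀ s, Dom (fun Y g => Sh Y (σ g) (st g)) ((i : ℕ) + 1) (Function.update v i s) (H s) := by
    intro s
    rw [hH]
    refine (DG s false).mix (DG s true) (div_nonneg (hn0 _ _) (hN0 s)) (div_nonneg (hn0 _ _) (hN0 s)) ?_
    rw [← add_div, ← hNn]; exact div_self_le_one _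
  have H0 : ∀ s g, 0 ≤ H s g := fun s g => by
    rw [hH]; have := hn0 s false; have := hn0 s true; have := hN0 s; have := G0 s false g
    have := G0 s true g; positivity
  have D1 := Dom.mix3
    (Dom.skip (R := fun Y g => Act i Y (σ g) (st g)) (fun g => σ g i = false ∧ st g i ≠ 0)
      (DF false false) fun Y g h h' => act_skip h.2 h')
    (Dom.skip (R := fun Y g => Act i Y (σ g) (st g)) (fun g => σ g i = true ∧ st g i ≠ 0)
      (DF true false) fun Y g h h' => act_skip h.2 h')
    (Dom.branch (R := fun Y g => Act i Y (σ g) (st g)) (F := fun s => F s true) (fun g => σ g i)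
      (fun g => st g i ≠ -1) (fun s => DF s true) fun Y g n e h h' => act_branch n e h h')
    (hy false) (hy true) hq.le hys
  have D2 := Dom.mix3
    (Dom.skip (R := fun Y g => Sh Y (σ g) (st g)) (fun g => σ g i = false) (DH false)
      fun Y g _ h' => h')
    (Dom.skip (R := fun Y g => Sh Y (σ g) (st g)) (fun g => σ g i = true) (DH true)
      fun Y g _ h' => h')
    (Dom.branch (R := fun Y g => Sh Y (σ g) (st g)) (F := H) (fun g => σ g i)
      (fun g => st g i = -1) DH fun Y g n e h h' => sh_branch n e h h')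
    (hy' false) (hy' true) hp hys'
  obtain ⟨f, hf⟩ : ∃ f : ι → ℝ, ∀ g, f g = y (σ g i) * (if st g i = 0 then 0 else F (σ g i) false g)
    + q * (if st g i = -1 then 0 else F (σ g i) true g) := ⟨_, fun _ => rfl⟩
  obtain ⟨f', hf'⟩ : ∃ f' : ι → ℝ, ∀ g, f' g =
    (if st g i = -1 then y' (σ g i) + p else y' (σ g i)) * H (σ g i) g := ⟨_, fun _ => rfl⟩
  have hY : ∀ g, 0 < if st g i = -1 then y' (σ g i) + p else y' (σ g i) := fun g => by
    have := hy' (σ g i); split_ifs <;> positivity
  have key : ∀ g, 0 < ρ g → (0 < f g ∧ 0 < f' g) ∧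
      r (σ g i) false g * Ex k C ((m : ℝ) - ((i : ℕ) + 1 : ℕ)) (zc ((i : ℕ) + 1) (st g))
        (r (σ g i) false g) (n (σ g i) false) (F (σ g i) false g) (G (σ g i) false g)
      + r (σ g i) true g * Ex k C ((m : ℝ) - ((i : ℕ) + 1 : ℕ)) (zc ((i : ℕ) + 1) (st g))
        (r (σ g i) true g) (n (σ g i) true) (F (σ g i) true g) (G (σ g i) true g)
      + ρ g * psi k C q p y y' (fun s => mass (fun g => σ g i) (fun g => st g i) ρ s 1) N
        (σ g i) (st g i) ≤ ρ g * Ex k C ((m : ℝ) - i) (zc i (st g)) (ρ g) 1 (f g) (f' g) := by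
    intro g hg
    have e0 := hr (σ g i) false g
    have e1 := hr (σ g i) true g
    simp only [if_true, Bool.false_eq_true, if_false] at e0 e1
    have hYg := hY g
    have hyg := hy (σ g i)
    rw [hf, hf', hH, zc_succ]
    unfold Ex psi
    have b0 := hβ g
    have hcast : ((m : ℝ) - ((i : ℕ) + 1 : ℕ)) = (m : ℝ) - i - 1 := by push_cast; ring
    rw [hcast]
    have hNg := hNn (σ g i)
    rcases (show st g i = 0 ∨ st g i = -1 ∨ st g i = 1 by
      cases st g i <;> simp) with hw | hw | hw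
    · rw [hw] at b0 hYg
      simp only [show ¬ ((0 : SignType) = 1) by decide, show ¬ ((0 : SignType) = -1) by decide,
        if_true, if_false] at b0 hYg
      rw [b0] at e0 e1
      rw [sub_self, mul_zero] at e0
      rw [mul_one] at e1
      have p1 := FG (σ g i) true g (by rw [e1]; exact hg)
      have pn : 0 < n (σ g i) true := lt_of_lt_of_le (by rw [e1]; exact hg) (hnr _ _ g)
      have := item_one (w := 0) (N := N (σ g i)) hk hg hq hYg p1.1 p1.2 (G0 (σ g i) false g) pn
        (hn0 (σ g i) false) (by linarith) (div_nonneg (hn0 _ _) (hN0 _))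
      simp only [hw, show ¬ ((0 : SignType) = 1) by decide, show ¬ ((0 : SignType) = -1) by decide,
        if_true, if_false, e0, e1, mul_zero, zero_add, zero_mul, add_zero, div_one]
      refine ⟨⟨mul_pos hq p1.1, mul_pos hYg ?_⟩, ?_⟩
      · have := hn0 (σ g i) false; have := G0 (σ g i) false g; have := p1.2
        have : 0 < N (σ g i) := by linarith
        positivity
      · rw [add_comm (n (σ g i) true / N (σ g i) * G (σ g i) true g)] at this
        have := mul_le_mul_of_nonneg_left this hg.le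
        linarith
    · rw [hw] at b0 hYg
      simp only [show ¬ ((-1 : SignType) = 1) by decide, show ¬ ((-1 : SignType) = 0) by decide,
        if_true, if_false] at b0 hYg
      rw [b0] at e0 e1
      rw [sub_zero, mul_one] at e0
      rw [mul_zero] at e1
      have p0 := FG (σ g i) false g (by rw [e0]; exact hg)
      have pn : 0 < n (σ g i) false := lt_of_lt_of_le (by rw [e0]; exact hg) (hnr _ _ g)
      have := item_one hk hg hyg hYg p0.1 p0.2 (G0 (σ g i) true g) pn
        (hn0 (σ g i) true) hNg (hA (σ g i))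
      simp only [hw, show ¬ ((-1 : SignType) = 1) by decide, show ¬ ((-1 : SignType) = 0) by decide,
        if_true, if_false, e0, e1, mul_zero, zero_mul, add_zero, div_one]
      refine ⟨⟨mul_pos hyg p0.1, mul_pos hYg ?_⟩, ?_⟩
      · have := hn0 (σ g i) true; have := G0 (σ g i) true g; have := p0.2
        have : 0 < N (σ g i) := by linarith
        positivity
      · have := mul_le_mul_of_nonneg_left this hg.le
        linarith
    · rw [hw] at b0 hYg
      simp only [show ¬ ((1 : SignType) = -1) by decide, if_true, if_false] at b0 hYg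
      have hb0 : 0 < β g := by rw [b0]; positivity
      have hb1 : 0 < 1 - β g := by
        have : 1 - β g = y (σ g i) / (q + y (σ g i)) := by rw [b0]; field_simp; ring
        rw [this]; positivity
      have r0 : 0 < r (σ g i) false g := by rw [e0]; positivity
      have r1 : 0 < r (σ g i) true g := by rw [e1]; positivity
      have p0 := FG (σ g i) false g r0
      have p1 := FG (σ g i) true g r1
      have pn0 : 0 < n (σ g i) false := lt_of_lt_of_le r0 (hnr _ _ g)
      have pn1 : 0 < n (σ g i) true := lt_of_lt_of_le r1 (hnr _ _ g)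
      have := item_two hk hg hyg hq b0 hYg p0.1 p1.1 p0.2 p1.2 pn0 pn1 hNg
      simp only [hw, show ¬ ((1 : SignType) = -1) by decide, show ¬ ((1 : SignType) = 0) by decide,
        if_true, if_false, e0, e1, mul_zero, add_zero, div_one]
      refine ⟨⟨add_pos (mul_pos hyg p0.1) (mul_pos hq p1.1), mul_pos hYg ?_⟩, ?_⟩
      · have := p0.2; have := p1.2
        have : 0 < N (σ g i) := by linarith
        positivity
      · have := mul_le_mul_of_nonneg_left this hg.le
        linarith
  refine ⟨f, f', fun g => ?_, fun g => ?_, fun g hg => (key g hg).1, ?_, ?_, ?_⟩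
  · rw [hf]; have := hy (σ g i); have := F0 (σ g i) false g; have := F0 (σ g i) true g
    split_ifs <;> positivity
  · rw [hf']; exact mul_nonneg (hY g).le (H0 _ _)
  · convert D1 using 2 with g
    rw [hf]; cases σ g i <;> by_cases h : st g i = 0 <;> by_cases h' : st g i = -1 <;> simp [h, h']
  · convert D2 using 2 with g
    rw [hf']; cases σ g i <;> by_cases h' : st g i = -1 <;> simp [h'] <;> ring
  · have tot := add_nonneg (add_nonneg (IH false false) (IH false true))
      (add_nonneg (IH true false) (IH true true))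
    simp only [← hn, ← sum_add_distrib] at tot
    simp only [← hN]
    refine le_trans (le_add_of_nonneg_left tot) ?_
    rw [← sum_add_distrib]
    refine sum_le_sum fun g _ => ?_
    rcases (h0 g).eq_or_lt with h | h
    · have : ∀ s B, r s B g = 0 := fun s B => by rw [hr, ← h]; simp
      simp [this, ← h]
    · refine le_trans (le_of_eq ?_) (key g h).2
      have : ∀ B, r (!σ g i) B g = 0 := fun B => by rw [hr, if_neg]; cases σ g i <;> simp
      cases hs : σ g i <;> rw [hs] at this <;> simp only [Bool.not_false, Bool.not_true] at this <;>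
        simp only [this, zero_mul, add_zero, zero_add]

lemma step_one {σ : ι → Fin m → Bool} {st : ι → Fin m → SignType} {u : ℝ} (hu : 0 < u)
    (hu' : u ≤ 1 / 768) {i : Fin m}
    (ih : Claim σ st (12 * u) (1 - log (2 * u ^ 2)) ((i : ℕ) + 1)) (v : Fin m → Bool) (ρ : ι → ℝ)
    (h0 : ∀ g, 0 ≤ ρ g) (h1 : ∀ g, 0 < ρ g → Ext i v (σ g)) (hP : ∑ g, ρ g = 1) :
    ∃ f f' : ι → ℝ, (∀ g, 0 ≤ f g) ∧ (∀ g, 0 ≤ f' g) ∧ (∀ g, 0 < ρ g → 0 < f g ∧ 0 < f' g) ∧
      Dom (fun Y g => Act i Y (σ g) (st g)) i v f ∧ Dom (fun Y g => Sh Y (σ g) (st g)) i v f' ∧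
      0 ≤ ∑ g, ρ g * Ex (12 * u) (1 - log (2 * u ^ 2)) ((m : ℝ) - i) (zc i (st g)) (ρ g) 1
        (f g) (f' g) := by
  obtain ⟨μ, hμ⟩ : ∃ μ, μ = mass (fun g => σ g i) (fun g => st g i) ρ := ⟨_, rfl⟩
  have hμ0 : ∀ s w, 0 ≤ μ s w := fun s w => hμ ▸ mass_nonneg _ _ h0 s w
  obtain ⟨L, hL⟩ : ∃ L : Bool, μ L 1 + μ (!L) (-1) ≤ μ L (-1) + μ (!L) 1 := by
    rcases le_total (μ false 1 + μ true (-1)) (μ false (-1) + μ true 1) with h | h
    · exact ⟨false, h⟩
    · exact ⟨true, by simpa [add_comm] using h⟩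
  have hs := sum_class (fun g => σ g i) (fun g => st g i) ρ (fun _ _ => 1) L
  simp only [mul_one, hP, ← hμ] at hs
  have hNL : (∑ g, if σ g i = L then ρ g else 0) = μ L 1 + μ L (-1) + μ L 0 := by
    have := sum_class (fun g => σ g i) (fun g => st g i) ρ (fun s _ => if s = L then 1 else 0) L
    simpa [← hμ] using this
  have hNR : (∑ g, if σ g i = !L then ρ g else 0) = μ (!L) 1 + μ (!L) (-1) + μ (!L) 0 := by
    have := sum_class (fun g => σ g i) (fun g => st g i) ρ (fun s _ => if s = !L then 1 else 0) L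
    simpa [← hμ] using this
  obtain ⟨t, p, ht, hp0, hp1, hloc⟩ := local_ineq (hμ0 L 1) (hμ0 L (-1)) (hμ0 (!L) 1) (hμ0 (!L) (-1))
    (hμ0 L 0) (hμ0 (!L) 0) hs.symm hL hu hu'
  have ht' := abs_le.1 ht
  have hu2 : u ^ 2 ≤ 1 / 16 := by nlinarith
  obtain ⟨f, f', a1, a2, a3, a4, a5, a6⟩ := step_core (by positivity) ih v ρ h0 h1 hP
    (q := u ^ 2) (p := p) (y := fun s => if s = L then 1 / 2 + t else 1 / 2 - u ^ 2 - t)
    (y' := fun s => if s = L then 1 / 2 - p else 1 / 2) (by positivity)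
    (fun s => by split_ifs <;> linarith) (by cases L <;> simp <;> linarith) hp0
    (fun s => by split_ifs <;> linarith) (by cases L <;> simp <;> linarith)
  refine ⟨f, f', a1, a2, a3, a4, a5, le_trans ?_ a6⟩
  rw [sum_class _ _ _ _ L]
  refine hloc.trans (le_of_eq ?_)
  have hne : ¬ ((!L) = L) := by cases L <;> simp
  simp only [psi, ← hμ, hNL, hNR, hne, show ¬ ((1 : SignType) = -1) by decide,
    show ¬ ((1 : SignType) = 0) by decide, show ¬ ((-1 : SignType) = 1) by decide,
    show ¬ ((-1 : SignType) = 0) by decide, show ¬ ((0 : SignType) = 1) by decide,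
    show ¬ ((0 : SignType) = -1) by decide, if_true, if_false]
  rw [show 2 * (u ^ 2 + (1 / 2 + t)) = 1 + (2 * u ^ 2 + 2 * t) by ring,
    show 2 * (1 / 2 + t) = 1 + 2 * t by ring,
    show 2 * (u ^ 2 + (1 / 2 - u ^ 2 - t)) = 1 + -(2 * t) by ring,
    show 2 * (1 / 2 - u ^ 2 - t) = 1 + -(2 * u ^ 2 + 2 * t) by ring,
    show 2 * (1 / 2 - p + p) = (1 : ℝ) by ring, show 2 * (1 / 2 - p) = 1 + -(2 * p) by ring,
    show 2 * (1 / 2 + p) = 1 + 2 * p by ring, show 2 * (1 / 2 : ℝ) = 1 by ring, log_one]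
  ring

lemma claim_step {σ : ι → Fin m → Bool} {st : ι → Fin m → SignType} {u : ℝ} (hu : 0 < u)
    (hu' : u ≤ 1 / 768) {i : Fin m}
    (ih : Claim σ st (12 * u) (1 - log (2 * u ^ 2)) ((i : ℕ) + 1)) :
    Claim σ st (12 * u) (1 - log (2 * u ^ 2)) i := by
  intro v ρ h0 h1
  rcases (sum_nonneg fun g _ => h0 g : 0 ≤ ∑ g, ρ g).eq_or_lt with hP | hP
  · have hz : ∀ g, ρ g = 0 := fun g =>
      (sum_eq_zero_iff_of_nonneg fun g _ => h0 g).1 hP.symm g (mem_univ g)
    exact ⟨fun _ => 0, fun _ => 0, fun _ => le_rfl, fun _ => le_rfl,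
      fun g hg => absurd (hz g) hg.ne', Dom.zero _ _ _, Dom.zero _ _ _, by simp [hz]⟩
  obtain ⟨f, f', a1, a2, a3, a4, a5, a6⟩ := step_one hu hu' ih v (fun g => ρ g / ∑ g, ρ g)
    (fun g => div_nonneg (h0 g) hP.le) (fun g hg => h1 g ((div_pos_iff_of_pos_right hP).1 hg))
    (by rw [← sum_div, div_self hP.ne'])
  refine ⟨f, f', a1, a2, fun g hg => a3 g (div_pos hg hP), a4, a5, ?_⟩
  have := mul_nonneg hP.le a6
  rw [mul_sum] at this
  refine this.trans (le_of_eq (sum_congr rfl fun g _ => ?_))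
  simp only [Ex, div_one]
  field_simp

lemma claim_all (σ : ι → Fin m → Bool) (st : ι → Fin m → SignType) {u : ℝ} (hu : 0 < u)
    (hu' : u ≤ 1 / 768) (h : ℕ) : ∀ i, i + h = m → Claim σ st (12 * u) (1 - log (2 * u ^ 2)) i := by
  induction h with
  | zero => intro i hi; obtain rfl : i = m := hi; exact claim_top σ st (by positivity)
  | succ h ih =>
    intro i hi
    exact claim_step hu hu' (i := ⟨i, by omega⟩) (ih (i + 1) (by omega))

lemma avg_log_le [Nonempty ι] {f : ι → ℝ} (hf : ∀ g, 0 < f g) {M : ℝ} (hM : ∑ g, f g ≤ M) :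
    ∑ g, (1 / Fintype.card ι : ℝ) * log (f g) ≤ log M - log (Fintype.card ι) := by
  have hG : (0 : ℝ) < Fintype.card ι := by exact_mod_cast Fintype.card_pos
  have hM0 : 0 < M := lt_of_lt_of_le (sum_pos (fun g _ => hf g) univ_nonempty) hM
  have h1 : ∀ g, (1 / Fintype.card ι : ℝ) * log (f g) ≤
      (1 / Fintype.card ι : ℝ) * (log M - log (Fintype.card ι) - 1) + f g / M := by
    intro g
    have h2 := log_le_sub_one_of_pos (show 0 < f g * Fintype.card ι / M by have := hf g; positivity)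
    rw [log_div (by have := hf g; positivity) hM0.ne', log_mul (hf g).ne' hG.ne'] at h2
    have h3 : f g / M = (1 / Fintype.card ι : ℝ) * (f g * Fintype.card ι / M) := by field_simp
    rw [h3, ← mul_add]
    gcongr; linarith
  refine (sum_le_sum fun g _ => h1 g).trans ?_
  rw [sum_add_distrib, sum_const, card_univ, nsmul_eq_mul, ← sum_div, ← mul_assoc,
    mul_one_div_cancel hG.ne', one_mul]
  have : (∑ g, f g) / M ≤ 1 := div_le_one_of_le₀ hM hM0.le
  linarith

open Classical in
/-- the tree game inequality. -/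
theorem game [Nonempty ι] (σ : ι → Fin m → Bool) (st : ι → Fin m → SignType) {u : ℝ} (hu : 0 < u)
    (hu' : u ≤ 1 / 768) (K : ℕ) (hK : ∀ g, zc 0 (st g) = K) {M M' : ℝ}
    (hM : ∀ Y, ((univ.filter fun g => Act 0 Y (σ g) (st g)).card : ℝ) ≤ M)
    (hM' : ∀ Y, ((univ.filter fun g => Sh Y (σ g) (st g)).card : ℝ) ≤ M') :
    (1 - 12 * u) * (log (Fintype.card ι) - m * log 2) ≤
      log M + 12 * u * log M' + (1 - log (2 * u ^ 2)) * K := by
  have hG : (0 : ℝ) < Fintype.card ι := by exact_mod_cast Fintype.card_pos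
  obtain ⟨f, f', -, -, a3, a4, a5, a6⟩ := claim_all σ st hu hu' m 0 (zero_add m) (fun _ => false)
    (fun _ => 1 / Fintype.card ι) (fun _ => by positivity) (fun g _ j hj => absurd hj (by omega))
  obtain ⟨Y, -, -, hY⟩ := a4 (fun _ => 1) fun _ => zero_le_one
  obtain ⟨Y', -, -, hY'⟩ := a5 (fun _ => 1) fun _ => zero_le_one
  have b1 : ∑ g, f g ≤ M := by
    refine le_trans ?_ (hM Y)
    rw [card_filter]; push_cast; simpa using hY
  have b2 : ∑ g, f' g ≤ M' := by
    refine le_trans ?_ (hM' Y')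
    rw [card_filter]; push_cast; simpa using hY'
  have c1 := avg_log_le (fun g => (a3 g (by positivity)).1) b1
  have c2 := mul_le_mul_of_nonneg_left (avg_log_le (fun g => (a3 g (by positivity)).2) b2)
    (show 0 ≤ 12 * u by positivity)
  have hs : ∑ _g : ι, (1 / Fintype.card ι : ℝ) = 1 := by
    rw [sum_const, card_univ, nsmul_eq_mul, mul_one_div_cancel hG.ne']
  simp only [hs, Ex, hK, div_one, mul_add, mul_sub, sum_add_distrib, sum_sub_distrib] at a6
  rw [mul_sum] at c2
  have e1 : ∑ g, (1 / Fintype.card ι : ℝ) * (12 * u * log (f' g)) =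
    ∑ g, 12 * u * ((1 / Fintype.card ι : ℝ) * log (f' g)) := sum_congr rfl fun g _ => by ring
  rw [e1] at a6
  simp only [← sum_mul] at a6
  simp only [hs, one_mul] at a6
  simp only [one_div, log_inv] at c1 c2 a6
  push_cast at a6
  linarith

end Pool.Agent.P.MP_358d01_co.H5
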