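import Pool.Agent.P.MP_358d01_co.H5.Thick

set_option autoImplicit false
set_option linter.unusedSectionVars false

namespace Pool.Agent.P.MP_358d01_co.H5

open Finset Module RealInnerProductSpace

variable {E : Type} [NormedAddCommGroup E] [InnerProductSpace ℝ E] [FiniteDimensional ℝ E]
variable {I : Type} [Fintype I] [DecidableEq I]

lemma Sep.dual {K : I → Set E} (h : Sep K) {z : I → E} (hz : ∀ i, z i ∈ K i) {T : Finset I}
    (hT : T.card = finrank ℝ E) : ∃ δ : I → E →ₗ[ℝ] ℝ,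
      (∀ j ∈ T, ∀ i ∈ T, δ j (z i) = if i = j then 1 else 0) ∧ ∀ p, ∑ i ∈ T, δ i p • z i = p := by
  let b : Basis T ℝ E := Basis.mk (h.sub hz hT)
    ((h.sub hz hT).span_eq_top_of_card_eq_finrank' (by simp [hT])).ge
  have hb : ∀ i : T, b i = z i := fun i => by simp [b]
  refine ⟨fun j => if hj : j ∈ T then b.coord ⟨j, hj⟩ else 0, fun j hj i hi => ?_, fun p => ?_⟩
  · simp only [hj, dif_pos]
    rw [← hb ⟨i, hi⟩, Basis.coord_apply, Basis.repr_self, Finsupp.single_apply]
    simp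
  · rw [← sum_coe_sort]
    conv_rhs => rw [← b.sum_repr p]
    refine sum_congr rfl fun i _ => ?_
    simp [hb]

/-- cone spanned by `z i`, `i ∈ T`, plus the line through `z i0`. -/
def Cone (z : I → E) (i0 : I) (T : Finset I) : Set E :=
  {p | ∃ (lam : I → ℝ) (μ : ℝ), (∀ i ∈ T, 0 ≤ lam i) ∧ p = ∑ i ∈ T, lam i • z i + μ • z i0}

lemma Cone.combo {z : I → E} {i0 : I} {T : Finset I} {p q : E} (hp : p ∈ Cone z i0 T)
    (hq : q ∈ Cone z i0 T) {a b : ℝ} (ha : 0 ≤ a) (hb : 0 ≤ b) : a • p + b • q ∈ Cone z i0 T := by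
  obtain ⟨l, μ, h1, rfl⟩ := hp
  obtain ⟨l', μ', h1', rfl⟩ := hq
  refine ⟨fun i => a * l i + b * l' i, a * μ + b * μ',
    fun i hi => add_nonneg (mul_nonneg ha (h1 i hi)) (mul_nonneg hb (h1' i hi)), ?_⟩
  simp only [smul_add, add_smul, sum_add_distrib, smul_sum, smul_smul]; abel

lemma Cone.convex (z : I → E) (i0 : I) (T : Finset I) : Convex ℝ (Cone z i0 T) :=
  fun _ hp _ hq _ _ ha hb _ => Cone.combo hp hq ha hb

lemma Cone.mono (z : I → E) (i0 : I) {T T' : Finset I} (h : T ⊆ T') : Cone z i0 T ⊆ Cone z i0 T' := by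
  rintro _ ⟨l, μ, h1, rfl⟩
  refine ⟨fun i => if i ∈ T then l i else 0, μ, fun i _ => ?_, ?_⟩
  · dsimp only; split_ifs with hi; exacts [h1 i hi, le_rfl]
  · simp [ite_smul, sum_ite_mem, inter_eq_right.2 h]

lemma Cone.gen (z : I → E) (i0 : I) {T : Finset I} {i : I} (hi : i ∈ T) : z i ∈ Cone z i0 T :=
  Cone.mono z i0 (singleton_subset_iff.2 hi) ⟨fun _ => 1, 0, by simp, by simp⟩

lemma Cone.line (z : I → E) (i0 : I) (T : Finset I) (t : ℝ) : t • z i0 ∈ Cone z i0 T :=
  ⟨fun _ => 0, t, by simp, by simp⟩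

lemma Cone.eq {z : I → E} {i0 : I} {T : Finset I} (h0 : i0 ∉ T) {δ : I → E →ₗ[ℝ] ℝ}
    (h1 : ∀ j ∈ insert i0 T, ∀ i ∈ insert i0 T, δ j (z i) = if i = j then 1 else 0)
    (h2 : ∀ p, ∑ i ∈ insert i0 T, δ i p • z i = p) : Cone z i0 T = {p | ∀ j ∈ T, 0 ≤ δ j p} := by
  ext p
  constructor
  · rintro ⟨l, μ, h3, rfl⟩ j hj
    have hj' := mem_insert_of_mem (b := i0) hj
    rw [map_add, map_sum, map_smul, h1 j hj' i0 (mem_insert_self _ _),
      if_neg (by rintro rfl; exact h0 hj), smul_zero, add_zero]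
    refine sum_nonneg fun i hi => ?_
    rw [map_smul, h1 j hj' i (mem_insert_of_mem hi)]
    have := h3 i hi
    rw [smul_eq_mul]; positivity
  · intro hp
    exact ⟨fun i => δ i p, δ i0 p, hp, by rw [add_comm, ← sum_insert (f := fun i => δ i p • z i) h0, h2]⟩

lemma colorful {K : I → Set E} (h : Sep K) {z : I → E} (hz : ∀ i, z i ∈ K i) {k : ℕ}
    (hk : finrank ℝ E = k + 1) {i0 : I} {p : E} (A : Fin k → Finset I) (hA0 : ∀ l, i0 ∉ A l)
    (hp : ∀ l, p ∈ Cone z i0 (A l)) (j0 : Fin k → I) (hj0 : Function.Injective j0)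
    (hj0' : ∀ l, j0 l ∈ A l) :
    ∃ j : Fin k → I, Function.Injective j ∧ (∀ l, j l ∈ A l) ∧ p ∈ Cone z i0 (univ.image j) := by
  classical
  have hcard : ∀ j : Fin k → I, Function.Injective j → (∀ l, j l ∈ A l) →
      i0 ∉ univ.image j ∧ (insert i0 (univ.image j)).card = finrank ℝ E := by
    intro j h1 h2
    have : i0 ∉ univ.image j := by
      intro h; obtain ⟨l, -, hl⟩ := mem_image.1 h; exact hA0 l (hl ▸ h2 l)
    exact ⟨this, by rw [card_insert_of_notMem this, card_image_of_injective _ h1, hk]; simp⟩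
  have hnear : ∀ j : Fin k → I, ∃ q : E, Function.Injective j → (∀ l, j l ∈ A l) →
      q ∈ Cone z i0 (univ.image j) ∧ ‖p - q‖ = ⨅ w : Cone z i0 (univ.image j), ‖p - w‖ := by
    intro j
    by_cases hj : Function.Injective j ∧ ∀ l, j l ∈ A l
    · obtain ⟨a1, a2⟩ := hcard j hj.1 hj.2
      obtain ⟨δ, d1, d2⟩ := h.dual hz a2
      have hcl : IsClosed (Cone z i0 (univ.image j)) := by
        rw [Cone.eq a1 d1 d2, Set.ofPred_forall]
        refine isClosed_iInter fun i => ?_
        rw [Set.ofPred_forall]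
        exact isClosed_iInter fun _ =>
          isClosed_le continuous_const (δ i).continuous_of_finiteDimensional
      have := FiniteDimensional.complete ℝ E
      obtain ⟨q, hq⟩ := exists_norm_eq_iInf_of_complete_convex ⟨_, Cone.line z i0 _ 0⟩ hcl.isComplete
        (Cone.convex z i0 _) p
      exact ⟨q, fun _ _ => hq⟩
    · exact ⟨0, fun h1 h2 => absurd ⟨h1, h2⟩ hj⟩
  choose q hq using hnear
  obtain ⟨j, hj, hmin⟩ := (univ.filter fun j : Fin k → I => Function.Injective j ∧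
    ∀ l, j l ∈ A l).exists_min_image (fun j => ‖p - q j‖) ⟨j0, by simp [hj0, hj0']⟩
  obtain ⟨h1, h2⟩ := (mem_filter.1 hj).2
  refine ⟨j, h1, h2, ?_⟩
  obtain ⟨q1, q2⟩ := hq j h1 h2
  by_contra hpq
  have hn : p - q j ≠ 0 := fun e => hpq (sub_eq_zero.1 e ▸ q1)
  have var := (norm_eq_iInf_iff_real_inner_le_zero (Cone.convex z i0 _) q1).1 q2
  have var' : ∀ w ∈ Cone z i0 (univ.image j), ⟪p - q j, w⟫ ≤ 0 := fun w hw => by
    simpa using var _ (Cone.combo q1 hw zero_le_one zero_le_one)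
  have v0 : ⟪p - q j, z i0⟫ = 0 := by
    have a1 := var' _ (Cone.line z i0 _ 1)
    have a2 := var' _ (Cone.line z i0 _ (-1))
    rw [real_inner_smul_right] at a1 a2
    linarith
  have vq : ⟪p - q j, q j⟫ = 0 := by
    have a1 := var' _ q1
    have a2 := var _ (Cone.line z i0 _ 0)
    rw [zero_smul, zero_sub, inner_neg_right] at a2
    linarith
  obtain ⟨lam, μ, l1, l2⟩ := q1
  obtain ⟨l, hl⟩ : ∃ l, lam (j l) = 0 := by
    by_contra hc
    push Not at hc
    have a1 : ∑ i ∈ univ.image j, lam i * ⟪p - q j, z i⟫ = 0 := by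
      have := vq
      nth_rewrite 2 [l2] at this
      simpa only [inner_add_right, inner_sum, real_inner_smul_right, v0, mul_zero, add_zero] using this
    have a2 := (sum_eq_zero_iff_of_nonpos fun i hi =>
      mul_nonpos_of_nonneg_of_nonpos (l1 i hi) (var' _ (Cone.gen z i0 hi))).1 a1
    obtain ⟨a, ha⟩ := h.span hz (hcard j h1 h2).2 (p - q j)
    apply hn
    rw [← inner_self_eq_zero (𝕜 := ℝ)]
    nth_rewrite 2 [← ha]
    rw [inner_sum]
    refine sum_eq_zero fun i hi => ?_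
    rw [real_inner_smul_right]
    rcases mem_insert.1 hi with rfl | hi
    · rw [v0, mul_zero]
    · obtain ⟨l, -, rfl⟩ := mem_image.1 hi
      rw [(mul_eq_zero.1 (a2 _ hi)).resolve_left (hc l), mul_zero]
  obtain ⟨v, hv, hv'⟩ : ∃ v ∈ A l, 0 < ⟪p - q j, z v⟫ := by
    by_contra hc
    push Not at hc
    obtain ⟨lam', μ', l1', l2'⟩ := hp l
    have a1 : ⟪p - q j, p⟫ ≤ 0 := by
      nth_rewrite 2 [l2']
      simp only [inner_add_right, inner_sum, real_inner_smul_right, v0, mul_zero, add_zero]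
      exact sum_nonpos fun i hi => mul_nonpos_of_nonneg_of_nonpos (l1' i hi) (hc i hi)
    have a2 : 0 < ⟪p - q j, p - q j⟫ := real_inner_self_pos.2 hn
    rw [inner_sub_right, vq] at a2
    linarith
  have hvj : ∀ l', j l' ≠ v := fun l' e =>
    absurd (var' _ (Cone.gen z i0 (mem_image_of_mem j (mem_univ l')))) (by rw [e]; exact not_le.2 hv')
  have b1 : Function.Injective (Function.update j l v) := by
    intro x y hxy
    by_cases hx : x = l <;> by_cases hy : y = l
    · rw [hx, hy]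
    · rw [hx, Function.update_self, Function.update_of_ne hy] at hxy; exact absurd hxy.symm (hvj y)
    · rw [hy, Function.update_self, Function.update_of_ne hx] at hxy; exact absurd hxy (hvj x)
    · rw [Function.update_of_ne hx, Function.update_of_ne hy] at hxy; exact h1 hxy
  have b2 : ∀ l', Function.update j l v l' ∈ A l' := fun l' => by
    by_cases hx : l' = l
    · subst hx; simpa using hv
    · simpa [hx] using h2 l'
  have b3 : q j ∈ Cone z i0 (univ.image (Function.update j l v)) := by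
    refine Cone.mono z i0 (T := (univ.image j).erase (j l)) (fun i hi => ?_)
      ⟨lam, μ, fun i hi => l1 i (mem_of_mem_erase hi), ?_⟩
    · obtain ⟨hi1, hi2⟩ := mem_erase.1 hi
      obtain ⟨l', -, rfl⟩ := mem_image.1 hi2
      exact mem_image.2 ⟨l', mem_univ _, Function.update_of_ne (fun e => hi1 (by rw [e])) _ _⟩
    · rw [sum_erase _ (by rw [hl, zero_smul])]; exact l2
  have b4 : ‖p - q j‖ = ⨅ w : Cone z i0 (univ.image (Function.update j l v)), ‖p - w‖ := by
    refine le_antisymm ?_ (ciInf_le (f := fun w : Cone z i0 (univ.image (Function.update j l v)) =>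
      ‖p - w‖) ⟨0, by rintro _ ⟨w, rfl⟩; exact norm_nonneg _⟩ ⟨_, b3⟩)
    rw [← (hq _ b1 b2).2]
    exact hmin _ (by simp [b1, b2])
  have b5 := (norm_eq_iInf_iff_real_inner_le_zero (Cone.convex z i0 _) b3).1 b4 _
    (Cone.combo b3 (Cone.gen z i0 (mem_image.2 ⟨l, mem_univ _, Function.update_self ..⟩))
      zero_le_one zero_le_one)
  simp only [one_smul, add_sub_cancel_left] at b5
  linarith

lemma avoid {κ : Type} (s : Finset κ) (f : κ → E →ₗ[ℝ] ℝ) (hf : ∀ a ∈ s, f a ≠ 0) :
    ∀ U : Set E, IsOpen U → U.Nonempty → ∃ p ∈ U, ∀ a ∈ s, f a p ≠ 0 := by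
  classical
  induction s using Finset.induction_on with
  | empty => exact fun U _ ⟨p, hp⟩ => ⟨p, hp, by simp⟩
  | insert a s ha ih =>
    intro U hU hne
    obtain ⟨p, hp, h1⟩ := ih (fun b hb => hf b (mem_insert_of_mem hb)) (U ∩ {p | f a p ≠ 0})
      (hU.inter (isOpen_ne_fun (f a).continuous_of_finiteDimensional continuous_const)) (by
        by_contra hc
        apply hf a (mem_insert_self _ _)
        rw [← LinearMap.ker_eq_top]
        refine Submodule.eq_top_of_nonempty_interior' _ (hne.mono (interior_maximal ?_ hU))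
        intro p hp
        by_contra h2
        exact hc ⟨p, hp, h2⟩)
    exact ⟨p, hp.1, by simpa using ⟨hp.2, h1⟩⟩

lemma deep {K : I → Set E} (h : Sep K) {z : I → E} (hz : ∀ i, z i ∈ K i) {k b : ℕ}
    (hk : finrank ℝ E = k + 1) (hb : (k + 2) * b + k + 1 ≤ Fintype.card I) (i0 : I) :
    ∃ U : Set E, IsOpen U ∧ U.Nonempty ∧ ∀ A : Finset I, Aᶜ.card ≤ b → U ⊆ Cone z i0 A := by
  refine ⟨⋂ A ∈ univ.filter fun A : Finset I => Aᶜ.card ≤ b, interior (Cone z i0 A),
    isOpen_biInter_finset fun _ _ => isOpen_interior, ?_, fun A hA p hp =>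
    interior_subset (Set.mem_iInter₂.1 hp A (by simpa using hA))⟩
  apply Convex.helly_theorem' (𝕜 := ℝ) (fun A _ => (Cone.convex z i0 A).interior)
  intro F hF hc
  have h1 : (insert i0 (F.biUnion fun A => Aᶜ)).card ≤ (k + 2) * b + 1 := by
    refine (card_insert_le _ _).trans (Nat.add_le_add_right ?_ 1)
    refine (card_biUnion_le_card_mul _ _ b fun A hA => (mem_filter.1 (hF hA)).2).trans ?_
    exact Nat.mul_le_mul_right _ (by omega)
  obtain ⟨R, hR, hRc⟩ := exists_subset_card_eq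
    (show k ≤ (insert i0 (F.biUnion fun A => Aᶜ))ᶜ.card by rw [card_compl]; omega)
  have h0 : i0 ∉ R := fun h => by simpa using hR h
  obtain ⟨δ, d1, d2⟩ := h.dual hz (T := insert i0 R) (by rw [card_insert_of_notMem h0, hRc, hk])
  have h2 : ∑ i ∈ R, z i ∈ interior (Cone z i0 R) := by
    rw [Cone.eq h0 d1 d2]
    refine interior_maximal (t := ⋂ j ∈ R, {p | 0 < δ j p}) (fun p hp j hj =>
      le_of_lt (show 0 < δ j p from Set.mem_iInter₂.1 hp j hj)) (isOpen_biInter_finset fun j _ =>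
        isOpen_lt continuous_const (δ j).continuous_of_finiteDimensional) ?_
    refine Set.mem_iInter₂.2 fun j hj => ?_
    rw [Set.mem_ofPred_eq, map_sum,
      sum_congr rfl fun i hi => d1 j (mem_insert_of_mem hj) i (mem_insert_of_mem hi)]
    simp [hj]
  refine ⟨_, Set.mem_iInter₂.2 fun A hA => interior_mono (Cone.mono z i0 fun i hi => ?_) h2⟩
  by_contra hc
  exact mem_compl.1 (hR hi) (mem_insert_of_mem (mem_biUnion.2 ⟨A, hA, mem_compl.2 hc⟩))

lemma greedy {K : I → Set E} (h : Sep K) {z : I → E} (hz : ∀ i, z i ∈ K i) {k b : ℕ}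
    (hk : finrank ℝ E = k + 1) (hb : b + k ≤ Fintype.card I) {i0 : I} {p : E}
    (hp : ∀ A : Finset I, Aᶜ.card ≤ b → p ∈ Cone z i0 A) {κ : Type} [DecidableEq κ] (s : Finset κ) :
    k * s.card + 1 ≤ b → ∃ C : κ → Finset I, (∀ n ∈ s, i0 ∉ C n ∧ (C n).card = k ∧ p ∈ Cone z i0 (C n)) ∧
      ∀ n ∈ s, ∀ n' ∈ s, n ≠ n' → Disjoint (C n) (C n') := by
  induction s using Finset.induction_on with
  | empty => exact fun _ => ⟨fun _ => ∅, by simp, by simp⟩
  | insert a s ha ih =>
    intro hs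
    rw [card_insert_of_notMem ha, mul_add] at hs
    obtain ⟨C, h1, h2⟩ := ih (by omega)
    have h3 : (insert i0 (s.biUnion C)).card ≤ b := by
      refine (card_insert_le _ _).trans ?_
      have := card_biUnion_le_card_mul s C k fun n hn => (h1 n hn).2.1.le
      rw [mul_comm] at this; omega
    obtain ⟨R, hR, hRc⟩ := exists_subset_card_eq
      (show k ≤ (insert i0 (s.biUnion C))ᶜ.card by rw [card_compl]; omega)
    obtain ⟨j, j1, j2, j3⟩ := colorful h hz hk (i0 := i0) (p := p) (fun _ => (insert i0 (s.biUnion C))ᶜ)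
      (fun _ => by simp) (fun _ => hp _ (by rwa [compl_compl]))
      (fun l => ((R.equivFinOfCardEq hRc).symm l : I))
      (Subtype.val_injective.comp (Equiv.injective _)) (fun l => hR (Subtype.property _))
    have h4 : ∀ n ∈ s, Disjoint (univ.image j) (C n) := fun n hn => disjoint_left.2 fun i hi hi' => by
      obtain ⟨l, -, rfl⟩ := mem_image.1 hi
      exact mem_compl.1 (j2 l) (mem_insert_of_mem (mem_biUnion.2 ⟨n, hn, hi'⟩))
    have h5 : ∀ n ∈ s, Function.update C a (univ.image j) n = C n := fun n hn =>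
      Function.update_of_ne (by rintro rfl; exact ha hn) _ _
    refine ⟨Function.update C a (univ.image j), fun n hn => ?_, fun n hn n' hn' hne => ?_⟩
    · rcases mem_insert.1 hn with rfl | hn
      · rw [Function.update_self]
        refine ⟨fun hi => ?_, by rw [card_image_of_injective _ j1]; simp, j3⟩
        obtain ⟨l, -, hl⟩ := mem_image.1 hi
        exact mem_compl.1 (j2 l) (hl ▸ mem_insert_self _ _)
      · rw [h5 n hn]; exact h1 n hn
    · rcases mem_insert.1 hn with e | g <;> rcases mem_insert.1 hn' with e' | g'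
      · exact absurd (e.trans e'.symm) hne
      · rw [e, Function.update_self, h5 n' g']; exact h4 n' g'
      · rw [e', Function.update_self, h5 n g]; exact (h4 n g).symm
      · rw [h5 n g, h5 n' g']; exact h2 n g n' g' hne

theorem select {K : I → Set E} (h : Sep K) {z : I → E} (hz : ∀ i, z i ∈ K i) {k L : ℕ}
    (hk : finrank ℝ E = k + 1) (hb : (k + 2) * (k * (k * L) + 1) + k + 1 ≤ Fintype.card I) :
    ∃ (J : (Fin k → Fin L) → Finset I) (w : (Fin k → Fin L) → E →ₗ[ℝ] ℝ), (∀ a, (J a).card = k) ∧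
      (∀ a i, w a (z i) = 0 ↔ i ∈ J a) ∧
      ∀ a a', (∀ i ∈ J a, 0 ≤ w a' (z i)) → (∀ i ∈ J a', 0 ≤ w a (z i)) → a = a' := by
  obtain ⟨i0⟩ : Nonempty I := Fintype.card_pos_iff.1 (by omega)
  obtain ⟨U, hU, hne, hsub⟩ := deep h hz hk hb i0
  have : ∀ T : Finset I, ∃ δ : I → E →ₗ[ℝ] ℝ, T.card = finrank ℝ E →
      (∀ j ∈ T, ∀ i ∈ T, δ j (z i) = if i = j then 1 else 0) ∧ ∀ p, ∑ i ∈ T, δ i p • z i = p := by
    intro T
    by_cases hT : T.card = finrank ℝ E
    · obtain ⟨δ, hδ⟩ := h.dual hz hT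
      exact ⟨δ, fun _ => hδ⟩
    · exact ⟨0, fun h => absurd h hT⟩
  choose δ hδ using this
  obtain ⟨p, hpU, hp⟩ := avoid (univ.filter fun a : Finset I × I => a.1.card = finrank ℝ E ∧ a.2 ∈ a.1)
    (fun a => δ a.1 a.2) (fun a ha h0 => by
      obtain ⟨a1, a2⟩ := (mem_filter.1 ha).2
      have := (hδ a.1 a1).1 a.2 a2 a.2 a2
      rw [h0] at this; simp at this) U hU hne
  obtain ⟨C, c1, c2⟩ := greedy h hz hk (b := k * (k * L) + 1)
    (le_trans (by nlinarith [Nat.zero_le (k * (k * L)), Nat.zero_le k]) hb) (i0 := i0) (p := p)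
    (fun A hA => hsub A hA hpU) (univ : Finset (Fin k × Fin L)) (by simp)
  have : ∀ a : Fin k → Fin L, ∃ j : Fin k → I, Function.Injective j ∧ (∀ l, j l ∈ C (l, a l)) ∧
      p ∈ Cone z i0 (univ.image j) := by
    intro a
    have : ∀ l, ∃ i, i ∈ C (l, a l) := fun l =>
      card_pos.1 (by rw [(c1 _ (mem_univ _)).2.1]; exact l.pos)
    choose j0 hj0 using this
    refine colorful h hz hk (fun l => C (l, a l)) (fun l => (c1 _ (mem_univ _)).1)
      (fun l => (c1 _ (mem_univ _)).2.2) j0 (fun l l' e => ?_) hj0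
    by_contra hc
    exact disjoint_left.1 (c2 (l, a l) (mem_univ _) (l', a l') (mem_univ _) (by simp [hc]))
      (hj0 l) (e ▸ hj0 l')
  choose j j1 j2 j3 using this
  have h0 : ∀ a, i0 ∉ univ.image (j a) := fun a hi => by
    obtain ⟨l, -, hl⟩ := mem_image.1 hi
    exact (c1 _ (mem_univ _)).1 (hl ▸ j2 a l)
  have hc : ∀ a, (univ.image (j a)).card = k := fun a => by
    rw [card_image_of_injective _ (j1 a)]; simp
  have hc' : ∀ a, (insert i0 (univ.image (j a))).card = finrank ℝ E := fun a => by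
    rw [card_insert_of_notMem (h0 a), hc, hk]
  have w0 : ∀ a, δ (insert i0 (univ.image (j a))) i0 (z i0) = 1 := fun a => by
    simpa using (hδ _ (hc' a)).1 i0 (mem_insert_self _ _) i0 (mem_insert_self _ _)
  have w1 : ∀ a, ∀ i ∈ univ.image (j a), δ (insert i0 (univ.image (j a))) i0 (z i) = 0 := fun a i hi => by
    rw [(hδ _ (hc' a)).1 i0 (mem_insert_self _ _) i (mem_insert_of_mem hi), if_neg]
    rintro rfl; exact h0 a hi
  have pos : ∀ a, ∀ i ∈ univ.image (j a), 0 < δ (insert i0 (univ.image (j a))) i p := fun a i hi => by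
    have := j3 a
    rw [Cone.eq (h0 a) (hδ _ (hc' a)).1 (hδ _ (hc' a)).2] at this
    exact (this i hi).lt_of_ne' (hp (insert i0 (univ.image (j a)), i)
      (mem_filter.2 ⟨mem_univ _, hc' a, mem_insert_of_mem hi⟩))
  have expand : ∀ a a', δ (insert i0 (univ.image (j a'))) i0 p = δ (insert i0 (univ.image (j a))) i0 p +
      ∑ i ∈ univ.image (j a), δ (insert i0 (univ.image (j a))) i p *
        δ (insert i0 (univ.image (j a'))) i0 (z i) := fun a a' => by
    conv_lhs => rw [← (hδ _ (hc' a)).2 p]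
    rw [sum_insert (h0 a), map_add, map_sum, map_smul, w0, smul_eq_mul, mul_one]
    simp only [map_smul, smul_eq_mul]
  have wz : ∀ a i, δ (insert i0 (univ.image (j a))) i0 (z i) = 0 ↔ i ∈ univ.image (j a) := by
    refine fun a i => ⟨fun hi => ?_, w1 a i⟩
    by_contra hi'
    obtain ⟨c, hc2⟩ := h.span hz (T := insert i (univ.image (j a)))
      (by rw [card_insert_of_notMem hi', hc, hk]) (z i0)
    have := w0 a
    rw [← hc2, sum_insert hi', map_add, map_smul, hi, map_sum,
      sum_eq_zero fun l hl => by rw [map_smul, w1 a l hl, smul_zero]] at this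
    simp at this
  refine ⟨fun a => univ.image (j a), fun a => δ (insert i0 (univ.image (j a))) i0, hc, wz,
    fun a a' e1 e2 => ?_⟩
  have s1 := sum_nonneg fun i hi => mul_nonneg (pos a i hi).le (e1 i hi)
  have s2 := sum_nonneg fun i hi => mul_nonneg (pos a' i hi).le (e2 i hi)
  have s3 := (sum_eq_zero_iff_of_nonneg fun i hi => mul_nonneg (pos a i hi).le (e1 i hi)).1
    (by linarith [expand a a', expand a' a])
  funext l
  have hi := mem_image_of_mem (j a) (mem_univ l)
  obtain ⟨l', -, hl'⟩ := mem_image.1 ((wz a' _).1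
    ((mul_eq_zero.1 (s3 _ hi)).resolve_left (pos a _ hi).ne'))
  by_contra hne
  refine disjoint_left.1 (c2 (l, a l) (mem_univ _) (l', a' l') (mem_univ _) ?_) (j2 a l) (hl' ▸ j2 a' l')
  intro e
  obtain ⟨rfl, e2⟩ := Prod.mk.inj e
  exact hne e2

end Pool.Agent.P.MP_358d01_co.H5
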