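import Pool.Agent.P.MP_358d01_co.H5.Tree
import Pool.Agent.P.MP_358d01_co.H5.Select
import Pool.Agent.P.MP_358d01_co.H5.Game

set_option autoImplicit false
set_option linter.unusedSectionVars false

namespace Pool.Agent.P.MP_358d01_co.H5

open Finset Module Real

variable {E : Type} [NormedAddCommGroup E] [InnerProductSpace ℝ E] [FiniteDimensional ℝ E]
  [DecidableEq E]

lemma Sep.smul {I : Type} {K : I → Set E} (h : Sep K) (s : I → ℝ) (hs : ∀ i, s i ≠ 0) :
    Sep fun i => (fun v => s i • v) '' K i := by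
  intro j hj v hv
  choose u hu hu' using hv
  have := (h j hj u hu).units_smul fun l => Units.mk0 (s (j l)) (hs _)
  convert this using 2 with l
  simp [← hu', Units.smul_def]

lemma witness {I : Type} [Fintype I] (hI : finrank ℝ E ≤ Fintype.card I) (x : E) (X : I → Finset E)
    (h : Sep fun j => (fun y => x - y) '' convexHull ℝ (X j : Set E)) (p : I → E) (hp : ∀ i, p i ∈ X i)
    (w : E →ₗ[ℝ] ℝ) (J : Finset I) (hJ : J.card ≤ finrank ℝ E) (hw : ∀ i, w (x - p i) = 0 → i ∈ J) :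
    ∃ W : E →ₗ[ℝ] ℝ, ∀ j, ∀ y ∈ X j,
      (0 ≤ w (x - p j) → W y < W x) ∧ (w (x - p j) < 0 → W x < W y) := by
  obtain ⟨s, hs⟩ : ∃ s : I → ℝ, ∀ i, s i = if w (x - p i) < 0 then -1 else 1 := ⟨_, fun _ => rfl⟩
  have hs0 : ∀ i, s i ≠ 0 := fun i => by rw [hs]; split_ifs <;> norm_num
  have hK : ∀ i, Convex ℝ ((fun v => s i • v) '' ((fun y => x - y) '' convexHull ℝ (X i : Set E))) := by
    intro i
    refine Convex.smul ?_ (s i)
    have := (convex_convexHull ℝ (X i : Set E)).affine_image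
      (AffineMap.const ℝ E x - AffineMap.id ℝ E)
    exact this
  have hz : ∀ i, ∀ y ∈ X i, s i • (x - y) ∈
      (fun v => s i • v) '' ((fun y => x - y) '' convexHull ℝ (X i : Set E)) :=
    fun i y hy => ⟨_, ⟨y, subset_convexHull ℝ _ hy, rfl⟩, rfl⟩
  have h0 : ∀ i, 0 ≤ w (s i • (x - p i)) := fun i => by
    rw [map_smul, hs, smul_eq_mul]; split_ifs <;> linarith
  obtain ⟨W, hW⟩ := thick (fun i => (X i).image fun y => s i • (x - y)) hK
    (fun i v hv => by obtain ⟨y, hy, rfl⟩ := mem_image.1 hv; exact hz i y hy)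
    (fun i => hz i _ (hp i)) (no_rel hK (h.smul s hs0) hI (fun i => hz i _ (hp i)) hJ h0
      fun i hi => (h0 i).lt_of_ne' fun e => hi (hw i (by
        rw [map_smul, smul_eq_mul, mul_eq_zero] at e; exact e.resolve_left (hs0 i))))
  refine ⟨W, fun j y hy => ?_⟩
  have := hW j _ (mem_image_of_mem _ hy)
  rw [map_smul, hs, map_sub W, smul_eq_mul] at this
  constructor
  · intro h1; rw [if_neg (not_lt.2 h1)] at this; linarith
  · intro h1; rw [if_pos h1] at this; linarith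

lemma card_le_of_exposed {m M : ℕ} {S : Finset E} (hM : ∀ T ⊆ S, Conv T → T.card ≤ M)
    {x : (Fin m → Bool) → E} {Sib : (Fin m → Bool) → Fin m → Finset E} (hx : ∀ σ, x σ ∈ S)
    (hS : ∀ σ σ' (j : Fin m), Ext j σ σ' → σ' j ≠ σ j → x σ' ∈ Sib σ j) (Y : Set (Fin m → Bool))
    (A : Finset (Fin m → Bool)) (hA : ∀ σ ∈ A, σ ∈ Y ∧ ∃ W : E →ₗ[ℝ] ℝ,
      ∀ j, Br Y σ j → ∀ y ∈ Sib σ j, W y < W (x σ)) : A.card ≤ M := by
  have key : ∀ σ ∈ A, ∃ W : E →ₗ[ℝ] ℝ, ∀ σ' ∈ A, σ' ≠ σ → W (x σ') < W (x σ) := by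
    intro σ hσ
    obtain ⟨-, W, hW⟩ := hA σ hσ
    refine ⟨W, fun σ' hσ' hne => ?_⟩
    obtain ⟨j, hj, hmin⟩ := (univ.filter fun j => σ' j ≠ σ j).exists_min_image id
      (by by_contra hc; exact hne (funext fun j => by
        by_contra h; exact hc ⟨j, mem_filter.2 ⟨mem_univ _, h⟩⟩))
    have e : Ext j σ σ' := fun l hl => by
      by_contra h
      exact absurd (hmin l (mem_filter.2 ⟨mem_univ _, h⟩)) (not_le.2 hl)
    exact hW j ⟨σ', (hA σ' hσ').1, e, (mem_filter.1 hj).2⟩ _ (hS σ σ' j e (mem_filter.1 hj).2)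
  have inj : Set.InjOn x A := fun σ hσ σ' hσ' e => by
    by_contra hne
    obtain ⟨W, hW⟩ := key σ' hσ'
    exact absurd (hW σ hσ hne) (by rw [e]; exact lt_irrefl _)
  rw [← card_image_of_injOn inj]
  refine hM _ (fun p hp => by obtain ⟨σ, -, rfl⟩ := mem_image.1 hp; exact hx σ) fun p hp hc => ?_
  obtain ⟨σ, hσ, rfl⟩ := mem_image.1 hp
  obtain ⟨W, hW⟩ := key σ hσ
  refine lt_irrefl _ (hull_lt (f := W) (c := W (x σ)) (fun y hy => ?_) hc)
  obtain ⟨h1, h2⟩ := mem_erase.1 (mem_coe.1 hy)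
  obtain ⟨σ', hσ', rfl⟩ := mem_image.1 h2
  exact hW σ' hσ' fun e => h1 (by rw [e])

theorem core {d t m M L : ℕ} (hd : finrank ℝ E = d + 1) {S : Finset E} (hS : GP S)
    (hM : ∀ T ⊆ S, Conv T → T.card ≤ M)
    (h1 : (((d + 2) ^ 2 ^ (d + 2)) ^ t) ^ m * (d + 2) ≤ S.card)
    (h2 : 2 * m * ((d + 1) * (m * M + 1) ^ (d + 1) * (d + 1) ^ t) ≤ (d + 2) ^ t)
    (hL : 0 < L) (hM0 : 0 < M) (hb : (d + 2) * (d * (d * L) + 1) + d + 1 ≤ m) {u : ℝ} (hu : 0 < u)
    (hu' : u ≤ 1 / 768) :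
    (1 - 12 * u) * (d * log L - log 2) ≤
      log M + 12 * u * (log M + d * log L) + (1 - log (2 * u ^ 2)) * d := by
  classical
  obtain ⟨x, Sib, Good, hx, hSib, hG, hsep⟩ := tree hd hS hM h1 h2
  have hp : ∀ σ j, x (Function.update σ j (!σ j)) ∈ Sib σ j := fun σ j =>
    hSib σ _ j (fun l hl => Function.update_of_ne (by rintro rfl; omega) _ _) (by simp)
  choose J w hJ hw huniq using fun σ : Good => select (hsep σ σ.2)
    (z := fun j => x σ - x (Function.update σ.1 j (!σ.1 j))) (L := L)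
    (fun j => ⟨_, subset_convexHull ℝ _ (hp σ j), rfl⟩) hd (by simpa using hb)
  choose W hW using fun (σ : Good) a => witness (by simp; omega) (x σ) (Sib σ) (hsep σ σ.2) _ (hp σ)
    (w σ a) (J σ a) (by rw [hJ]; omega) fun i => (hw σ a i).1
  have hGne : 0 < Good.card := by
    have : 0 < 2 ^ m := by positivity
    omega
  have : Nonempty Good := (card_pos.1 hGne).to_subtype
  have : Nonempty (Fin L) := ⟨⟨0, hL⟩⟩
  have main := game (ι := Good × (Fin d → Fin L)) (fun g => g.1.1)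
    (fun g j => SignType.sign (w g.1 g.2 (x g.1 - x (Function.update g.1.1 j (!g.1.1 j)))))
    hu hu' d (M := M) (M' := M * L ^ d) (fun g => by
      refine Eq.trans ?_ (hJ g.1 g.2)
      rw [zc]
      congr 1; ext j; simp only [mem_filter, mem_univ, true_and, zero_le, _root_.sign_eq_zero_iff, hw])
    (fun Y => by
      rw [Nat.cast_le, ← card_image_of_injOn (f := fun g => g.1.1)]
      · refine card_le_of_exposed hM hx hSib Y _ fun σ hσ => ?_
        obtain ⟨g, hg, rfl⟩ := mem_image.1 hσ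
        have hg := (mem_filter.1 hg).2
        refine ⟨hg.1, W g.1 g.2, fun j hj y hy => (hW g.1 g.2 j y hy).1 ?_⟩
        simpa [sign_eq_neg_one_iff] using (hg.2 j).1 hj
      · rintro ⟨σ, a⟩ hg ⟨σ', a'⟩ hg' e
        obtain rfl : σ = σ' := Subtype.ext e
        have hg := (mem_filter.1 (mem_coe.1 hg)).2
        have hg' := (mem_filter.1 (mem_coe.1 hg')).2
        rw [huniq σ a a' (fun i hi => ?_) fun i hi => ?_]
        · have := (hg'.2 i).1 ((hg.2 i).2 (Nat.zero_le _) (sign_eq_zero_iff.2 ((hw σ a i).2 hi)))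
          exact not_lt.1 (mt sign_eq_neg_one_iff.2 this)
        · have := (hg.2 i).1 ((hg'.2 i).2 (Nat.zero_le _) (sign_eq_zero_iff.2 ((hw σ a' i).2 hi)))
          exact not_lt.1 (mt sign_eq_neg_one_iff.2 this))
    (fun Y => by
      norm_cast
      refine (card_le_mul_card_image (f := fun g => g.1.1) _ (L ^ d) fun σ _ => ?_).trans ?_
      · refine le_trans (card_le_card_of_injOn (t := univ) (fun g => g.2) (fun _ _ => mem_univ _) ?_)
          (by simp)
        rintro ⟨σ1, a⟩ hg ⟨σ2, a'⟩ hg' e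
        exact Prod.ext (Subtype.ext (((mem_filter.1 (mem_coe.1 hg)).2).trans
          ((mem_filter.1 (mem_coe.1 hg')).2).symm)) e
      · rw [mul_comm]
        refine Nat.mul_le_mul_right _ (card_le_of_exposed hM hx hSib Y _ fun σ hσ => ?_)
        obtain ⟨g, hg, rfl⟩ := mem_image.1 hσ
        have hg := (mem_filter.1 hg).2
        refine ⟨hg.1, -W g.1 g.2, fun j hj y hy => ?_⟩
        simpa using (hW g.1 g.2 j y hy).2 (sign_eq_neg_one_iff.1 (hg.2 j hj)))
  have hL' : (0 : ℝ) < L := by exact_mod_cast hL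
  have hM' : (0 : ℝ) < M := by exact_mod_cast hM0
  have hG' : (0 : ℝ) < Good.card := by exact_mod_cast hGne
  rw [log_mul hM'.ne' (by positivity), log_pow] at main
  refine le_trans (mul_le_mul_of_nonneg_left ?_ (by linarith)) main
  have e : (Fintype.card (Good × (Fin d → Fin L)) : ℝ) = Good.card * L ^ d := by simp
  have e2 : log ((2 : ℝ) ^ m) ≤ log (2 * Good.card) :=
    log_le_log (by positivity) (by exact_mod_cast hG)
  rw [log_pow, log_mul two_ne_zero hG'.ne'] at e2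
  rw [e, log_mul hG'.ne' (by positivity), log_pow]
  linarith

end Pool.Agent.P.MP_358d01_co.H5
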