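import Mathlib

set_option autoImplicit false

namespace Pool.Agent.P.MP_358d01_co.H5

open Finset

/-- `w` agrees with `v` on all levels below `i`. -/
def Ext {m : ℕ} (i : ℕ) (v w : Fin m → Bool) : Prop := ∀ j : Fin m, (j : ℕ) < i → w j = v j

/-- the set of paths `Y` branches away from `w` at level `j`. -/
def Br {m : ℕ} (Y : Set (Fin m → Bool)) (w : Fin m → Bool) (j : Fin m) : Prop :=
  ∃ w' ∈ Y, Ext j w w' ∧ w' j ≠ w j

/-- alive and activated for the main process. -/
def Act {m : ℕ} (i : ℕ) (Y : Set (Fin m → Bool)) (w : Fin m → Bool) (s : Fin m → SignType) : Prop :=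
  w ∈ Y ∧ ∀ j, (Br Y w j → s j ≠ -1) ∧ (i ≤ (j : ℕ) → s j = 0 → Br Y w j)

/-- alive for the shadow process. -/
def Sh {m : ℕ} (Y : Set (Fin m → Bool)) (w : Fin m → Bool) (s : Fin m → SignType) : Prop :=
  w ∈ Y ∧ ∀ j, Br Y w j → s j = -1

open Classical in
/-- `f` is dominated by a random choice of a path set below `v`. -/
def Dom {m : ℕ} {ι : Type} [Fintype ι] (R : Set (Fin m → Bool) → ι → Prop) (i : ℕ)
    (v : Fin m → Bool) (f : ι → ℝ) : Prop :=
  ∀ lam : ι → ℝ, (∀ g, 0 ≤ lam g) → ∃ Y : Set (Fin m → Bool), Y.Nonempty ∧ (∀ w ∈ Y, Ext i v w) ∧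
    ∑ g, lam g * f g ≤ ∑ g, if R Y g then lam g else 0

variable {m : ℕ} {ι : Type} [Fintype ι]

lemma Ext.of_update {i : Fin m} {v w : Fin m → Bool} {s : Bool}
    (h : Ext ((i : ℕ) + 1) (Function.update v i s) w) : Ext i v w ∧ w i = s := by
  refine ⟨fun j hj => ?_, ?_⟩
  · have := h j (by omega)
    rwa [Function.update_of_ne (by intro e; subst e; omega)] at this
  · have := h i (by omega)
    rwa [Function.update_self] at this

lemma Ext.update {i : Fin m} {v w : Fin m → Bool} (h : Ext i v w) :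
    Ext ((i : ℕ) + 1) (Function.update v i (w i)) w := by
  intro j hj
  by_cases e : j = i
  · subst e; simp
  · rw [Function.update_of_ne e]
    exact h j (by have : (j : ℕ) ≠ i := fun h => e (Fin.ext h); omega)

lemma Dom.zero (R : Set (Fin m → Bool) → ι → Prop) (i : ℕ) (v : Fin m → Bool) :
    Dom R i v (fun _ => 0) := by
  intro lam hl
  refine ⟨{v}, by simp, ?_, ?_⟩
  · intro w hw j _; rw [Set.mem_singleton_iff.1 hw]
  · simp only [mul_zero, sum_const_zero]
    exact sum_nonneg fun g _ => by split_ifs; exacts [hl g, le_rfl]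

lemma Dom.mix {R : Set (Fin m → Bool) → ι → Prop} {i : ℕ} {v : Fin m → Bool} {f0 f1 : ι → ℝ}
    (h0 : Dom R i v f0) (h1 : Dom R i v f1) {a b : ℝ} (ha : 0 ≤ a) (hb : 0 ≤ b) (hab : a + b ≤ 1) :
    Dom R i v (fun g => a * f0 g + b * f1 g) := by
  classical
  intro lam hl
  obtain ⟨Y0, n0, e0, s0⟩ := h0 lam hl
  obtain ⟨Y1, n1, e1, s1⟩ := h1 lam hl
  have p0 : 0 ≤ ∑ g, if R Y0 g then lam g else 0 :=
    sum_nonneg fun g _ => by split_ifs; exacts [hl g, le_rfl]
  have p1 : 0 ≤ ∑ g, if R Y1 g then lam g else 0 :=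
    sum_nonneg fun g _ => by split_ifs; exacts [hl g, le_rfl]
  have e : ∑ g, lam g * (a * f0 g + b * f1 g) = a * ∑ g, lam g * f0 g + b * ∑ g, lam g * f1 g := by
    rw [mul_sum, mul_sum, ← sum_add_distrib]; exact sum_congr rfl fun g _ => by ring
  rcases le_total (∑ g, if R Y0 g then lam g else 0) (∑ g, if R Y1 g then lam g else 0) with h | h
  · refine ⟨Y1, n1, e1, ?_⟩
    rw [e]
    convert (show a * ∑ g, lam g * f0 g + b * ∑ g, lam g * f1 g ≤
      ∑ g, if R Y1 g then lam g else 0 by nlinarith [mul_le_mul_of_nonneg_left (s0.trans (by convert h)) ha, mul_le_mul_of_nonneg_left s1 hb])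
  · refine ⟨Y0, n0, e0, ?_⟩
    rw [e]
    convert (show a * ∑ g, lam g * f0 g + b * ∑ g, lam g * f1 g ≤
      ∑ g, if R Y0 g then lam g else 0 by nlinarith [mul_le_mul_of_nonneg_left (s1.trans (by convert h)) hb, mul_le_mul_of_nonneg_left s0 ha])

lemma Dom.mix3 {R : Set (Fin m → Bool) → ι → Prop} {i : ℕ} {v : Fin m → Bool} {f0 f1 f2 : ι → ℝ}
    (h0 : Dom R i v f0) (h1 : Dom R i v f1) (h2 : Dom R i v f2) {a b c : ℝ} (ha : 0 < a) (hb : 0 < b)
    (hc : 0 ≤ c) (habc : a + b + c ≤ 1) :
    Dom R i v (fun g => a * f0 g + b * f1 g + c * f2 g) := by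
  have h := (h0.mix h1 (a := a / (a + b)) (b := b / (a + b)) (by positivity) (by positivity)
    (by rw [← add_div, div_self (by positivity)])).mix h2 (a := a + b) (by positivity) hc habc
  convert h using 2 with g
  field_simp

open Classical in
lemma Dom.skip {R R' : Set (Fin m → Bool) → ι → Prop} {i : Fin m} {v : Fin m → Bool} {s : Bool}
    {F : ι → ℝ} (ok : ι → Prop) (h : Dom R' ((i : ℕ) + 1) (Function.update v i s) F)
    (hs : ∀ Y g, ok g → R' Y g → R Y g) :
    Dom R i v (fun g => if ok g then F g else 0) := by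
  intro lam hl
  obtain ⟨Y, n, e, hY⟩ := h (fun g => if ok g then lam g else 0)
    (fun g => by split_ifs; exacts [hl g, le_rfl])
  refine ⟨Y, n, fun w hw => (e w hw).of_update.1, ?_⟩
  calc ∑ g, lam g * (if ok g then F g else 0) = ∑ g, (if ok g then lam g else 0) * F g :=
        sum_congr rfl fun g _ => by split_ifs <;> simp
    _ ≤ _ := hY
    _ ≤ _ := sum_le_sum fun g _ => by
        by_cases h1 : ok g
        · by_cases h2 : R' Y g
          · simp [h1, h2, hs Y g h1 h2]
          · simp only [h2, if_false]; split_ifs; exacts [hl g, le_rfl]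
        · simp only [h1, if_false, ite_self]; split_ifs; exacts [hl g, le_rfl]

open Classical in
lemma Dom.branch {R R' : Set (Fin m → Bool) → ι → Prop} {i : Fin m} {v : Fin m → Bool}
    {F : Bool → ι → ℝ} (side : ι → Bool) (ok : ι → Prop)
    (h : ∀ s, Dom R' ((i : ℕ) + 1) (Function.update v i s) (F s))
    (hb : ∀ (Y : Bool → Set (Fin m → Bool)) g, (∀ s, (Y s).Nonempty) →
      (∀ s, ∀ w ∈ Y s, Ext ((i : ℕ) + 1) (Function.update v i s) w) → ok g → R' (Y (side g)) g →
      R (Y false ∪ Y true) g) :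
    Dom R i v (fun g => if ok g then F (side g) g else 0) := by
  intro lam hl
  choose Y n e hY using fun s => h s (fun g => if side g = s ∧ ok g then lam g else 0)
    (fun g => by split_ifs; exacts [hl g, le_rfl])
  refine ⟨Y false ∪ Y true, (n false).mono Set.subset_union_left, ?_, ?_⟩
  · rintro w (hw | hw)
    exacts [(e _ w hw).of_update.1, (e _ w hw).of_update.1]
  calc ∑ g, lam g * (if ok g then F (side g) g else 0)
        = ∑ g, (if side g = false ∧ ok g then lam g else 0) * F false g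
          + ∑ g, (if side g = true ∧ ok g then lam g else 0) * F true g := by
        rw [← sum_add_distrib]
        refine sum_congr rfl fun g _ => ?_
        by_cases h1 : ok g <;> cases h2 : side g <;> simp [h1]
    _ ≤ _ := add_le_add (hY false) (hY true)
    _ ≤ _ := by
        rw [← sum_add_distrib]
        refine sum_le_sum fun g _ => ?_
        have key := hb Y g n e
        have hg := hl g
        have h0 : (0 : ℝ) ≤ if R (Y false ∪ Y true) g then lam g else 0 := by
          split_ifs; exacts [hg, le_rfl]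
        by_cases h1 : ok g
        · cases h2 : side g
          · rw [h2] at key
            by_cases h3 : R' (Y false) g
            · simp [h1, h3, key h1 h3]
            · simpa [h1, h3] using h0
          · rw [h2] at key
            by_cases h3 : R' (Y true) g
            · simp [h1, h3, key h1 h3]
            · simpa [h1, h3] using h0
        · simpa [h1] using h0

/-- branch points of a union of two sides. -/
lemma br_union {i : Fin m} {v : Fin m → Bool} {Y : Bool → Set (Fin m → Bool)}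
    (n : ∀ s, (Y s).Nonempty) (e : ∀ s, ∀ w ∈ Y s, Ext ((i : ℕ) + 1) (Function.update v i s) w)
    {s : Bool} {w : Fin m → Bool} (hw : w ∈ Y s) (j : Fin m) :
    Br (Y false ∪ Y true) w j ↔ j = i ∨ Br (Y s) w j := by
  have hws := (e s w hw).of_update
  constructor
  · rintro ⟨w', hw', h1, h2⟩
    by_cases hj : j = i
    · exact Or.inl hj
    right
    obtain ⟨s', hs'⟩ : ∃ s', w' ∈ Y s' := by rcases hw' with h | h; exacts [⟨_, h⟩, ⟨_, h⟩]
    have hw's := (e s' w' hs').of_update
    have hne : (j : ℕ) ≠ i := fun h => hj (Fin.ext h)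
    rcases lt_or_gt_of_ne hne with hlt | hlt
    · exact absurd ((hw's.1 j hlt).trans (hws.1 j hlt).symm) h2
    · have : s' = s := by rw [← hw's.2, ← hws.2]; exact h1 i hlt
      exact ⟨w', this ▸ hs', h1, h2⟩
  · rintro (rfl | ⟨w', hw', h1, h2⟩)
    · obtain ⟨w', hw'⟩ := n (!s)
      have hw's := (e _ w' hw').of_update
      refine ⟨w', ?_, fun l hl => (hw's.1 l hl).trans (hws.1 l hl).symm, ?_⟩
      · cases s; exacts [Or.inr hw', Or.inl hw']
      · rw [hw's.2, hws.2]; cases s <;> simp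
    · refine ⟨w', ?_, h1, h2⟩
      cases s; exacts [Or.inl hw', Or.inr hw']

lemma act_skip {i : Fin m} {Y : Set (Fin m → Bool)} {w : Fin m → Bool} {s : Fin m → SignType}
    (h0 : s i ≠ 0) (h : Act ((i : ℕ) + 1) Y w s) : Act i Y w s := by
  refine ⟨h.1, fun j => ⟨(h.2 j).1, fun hj hz => (h.2 j).2 ?_ hz⟩⟩
  have : (j : ℕ) ≠ i := fun e => h0 (by rw [← Fin.ext e]; exact hz)
  omega

lemma act_branch {i : Fin m} {v : Fin m → Bool} {Y : Bool → Set (Fin m → Bool)}
    (n : ∀ s, (Y s).Nonempty) (e : ∀ s, ∀ w ∈ Y s, Ext ((i : ℕ) + 1) (Function.update v i s) w)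
    {b : Bool} {w : Fin m → Bool} {s : Fin m → SignType} (h0 : s i ≠ -1)
    (h : Act ((i : ℕ) + 1) (Y b) w s) : Act i (Y false ∪ Y true) w s := by
  refine ⟨by cases b; exacts [Or.inl h.1, Or.inr h.1], fun j => ⟨fun hb => ?_, fun hj hz => ?_⟩⟩
  · rcases (br_union n e h.1 j).1 hb with rfl | hb
    exacts [h0, (h.2 j).1 hb]
  · rw [br_union n e h.1 j]
    by_cases hj' : j = i
    · exact Or.inl hj'
    · have : (j : ℕ) ≠ i := fun h => hj' (Fin.ext h)
      exact Or.inr ((h.2 j).2 (by omega) hz)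

lemma sh_branch {i : Fin m} {v : Fin m → Bool} {Y : Bool → Set (Fin m → Bool)}
    (n : ∀ s, (Y s).Nonempty) (e : ∀ s, ∀ w ∈ Y s, Ext ((i : ℕ) + 1) (Function.update v i s) w)
    {b : Bool} {w : Fin m → Bool} {s : Fin m → SignType} (h0 : s i = -1)
    (h : Sh (Y b) w s) : Sh (Y false ∪ Y true) w s := by
  refine ⟨by cases b; exacts [Or.inl h.1, Or.inr h.1], fun j hb => ?_⟩
  rcases (br_union n e h.1 j).1 hb with rfl | hb
  exacts [h0, h.2 j hb]

end Pool.Agent.P.MP_358d01_co.H5
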