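import Pool.Agent.P.MP_358d01_co.H5.Core

set_option autoImplicit false
set_option linter.unusedSectionVars false

namespace Pool.Agent.P.MP_358d01_co.H5

open Finset Module Real

lemma exists_t (d : ℕ) {A : ℕ} (hA : 1 ≤ A) :
    ∃ t : ℕ, A * (d + 1) ^ t ≤ (d + 2) ^ t ∧ (t : ℝ) ≤ (d + 2) * log A + 1 := by
  have hA' : (1 : ℝ) ≤ A := by exact_mod_cast hA
  have h0 : 0 ≤ ((d : ℝ) + 2) * log A := mul_nonneg (by positivity) (log_nonneg hA')
  refine ⟨⌈((d : ℝ) + 2) * log A⌉₊, ?_, (Nat.ceil_lt_add_one h0).le⟩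
  have h1 := Nat.le_ceil (((d : ℝ) + 2) * log A)
  generalize ⌈((d : ℝ) + 2) * log A⌉₊ = t at h1
  have h2 : 1 / ((d : ℝ) + 2) ≤ log (d + 2) - log (d + 1) := by
    have := log_le_sub_one_of_pos (show (0 : ℝ) < (d + 1) / (d + 2) by positivity)
    rw [log_div (by positivity) (by positivity)] at this
    have e : ((d : ℝ) + 1) / (d + 2) - 1 = -(1 / (d + 2)) := by field_simp; ring
    linarith
  have h3 : log ((A : ℝ) * (d + 1) ^ t) ≤ log (((d : ℝ) + 2) ^ t) := by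
    rw [log_mul (by positivity) (by positivity), log_pow, log_pow]
    have : log (A : ℝ) ≤ t * (1 / ((d : ℝ) + 2)) := by
      rw [mul_one_div, le_div_iff₀ (by positivity)]; linarith
    have := mul_le_mul_of_nonneg_left h2 (Nat.cast_nonneg (α := ℝ) t)
    linarith
  exact_mod_cast (log_le_log_iff (by positivity) (by positivity)).1 h3

lemma numeric {d y l : ℝ} (hd : 1 ≤ d) (hl : 768 ≤ l) (hy : 111 + l / d + 2 * log l ≤ y) :
    ¬ (1 - 12 * (1 / l)) * (d * y - log 2) ≤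
      l + 12 * (1 / l) * (l + d * y) + (1 - log (2 * (1 / l) ^ 2)) * d := by
  have hl0 : 0 < l := by linarith
  have h2 : log 2 ≤ 1 := by linarith [log_le_sub_one_of_pos (show (0 : ℝ) < 2 by norm_num)]
  have h2' : 0 ≤ log 2 := log_nonneg (by norm_num)
  have h3 : log l ≤ l := by linarith [log_le_sub_one_of_pos hl0]
  have h4 : l / d ≤ l := div_le_self hl0.le hd
  have h5 : 1 / l ≤ 1 / 768 := one_div_le_one_div_of_le (by norm_num) hl
  have h6 : 1 / l * l = 1 := by field_simp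
  have h7 : 0 < 1 / l := by positivity
  rw [log_mul two_ne_zero (by positivity), log_pow, one_div l, log_inv, ← one_div l]
  push_cast
  generalize 1 / l = u at *
  have h8 : (1 - 24 * u) * (111 + l / d + 2 * log l) ≤ (1 - 24 * u) * y :=
    mul_le_mul_of_nonneg_left hy (by linarith)
  have h9 : u * (111 + l / d + 2 * log l) ≤ u * (4 * l) :=
    mul_le_mul_of_nonneg_left (by linarith) h7.le
  have h10 : 15 + l / d + 2 * log l ≤ (1 - 24 * u) * y := by linarith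
  have h11 := mul_le_mul_of_nonneg_left h10 (show 0 ≤ d by linarith)
  have h12 : d * (l / d) = l := by field_simp
  have h13 := mul_nonneg h7.le h2'
  have h14 := mul_nonneg (show 0 ≤ d by linarith) h2'
  intro h
  nlinarith

theorem final (d : ℕ) (hd1 : 1 ≤ d) : ∃ C : ℝ, ∃ N : ℕ, ∀ n : ℕ, N ≤ n →
    ∀ {E : Type} [NormedAddCommGroup E] [InnerProductSpace ℝ E] [FiniteDimensional ℝ E]
      [DecidableEq E], finrank ℝ E = d + 1 → ∀ S : Finset E, GP S →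
      exp (C * (n : ℝ) ^ (1 / (d : ℝ)) * log n ^ 3) ≤ S.card → ∃ T ⊆ S, Conv T ∧ n < T.card := by
  obtain ⟨c1, hc1⟩ : ∃ c1 : ℝ, c1 = (d + 2) * (d * d + 1) + d + 1 := ⟨_, rfl⟩
  obtain ⟨c2, hc2⟩ : ∃ c2 : ℝ, c2 = 2 * c1 * exp 111 := ⟨_, rfl⟩
  obtain ⟨c3, hc3⟩ : ∃ c3 : ℝ, c3 = 2 * c2 * (d + 1) * (2 * c2) ^ (d + 1) := ⟨_, rfl⟩
  obtain ⟨c4, hc4⟩ : ∃ c4 : ℝ, c4 = (d + 2) * (c3 + (4 * d + 7)) + 1 := ⟨_, rfl⟩
  have hd : (1 : ℝ) ≤ d := by exact_mod_cast hd1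
  have p1 : 1 ≤ c1 := by rw [hc1]; nlinarith
  have pe : 1 ≤ exp 111 := one_le_exp (by norm_num)
  have p2 : 1 ≤ c2 := by rw [hc2]; nlinarith
  have p3 : 0 < c3 := by rw [hc3]; positivity
  have p4 : 0 < c4 := by rw [hc4]; positivity
  refine ⟨c4 * c2 * 2 ^ (d + 2) * (d + 2) + (d + 2), ⌈exp 768⌉₊, fun n hn E _ _ _ _ hE S hS hc => ?_⟩
  by_contra hcon
  have hM : ∀ T ⊆ S, Conv T → T.card ≤ n := fun T h1 h2 => not_lt.1 fun h3 => hcon ⟨T, h1, h2, h3⟩
  have n1 : exp 768 ≤ n := (Nat.le_ceil _).trans (by exact_mod_cast hn)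
  have n0 : (0 : ℝ) < n := (exp_pos _).trans_le n1
  have hl : 768 ≤ log n := (le_log_iff_exp_le n0).2 n1
  have hln : log n ≤ n := by linarith [log_le_sub_one_of_pos n0]
  have n2 : (1 : ℝ) ≤ n := by linarith
  have r1 : 1 ≤ (n : ℝ) ^ (1 / (d : ℝ)) := one_le_rpow n2 (by positivity)
  have r2 : (n : ℝ) ^ (1 / (d : ℝ)) ≤ n := by
    simpa using rpow_le_rpow_of_exponent_le n2 (div_le_one_of_le₀ hd (by linarith) : 1 / (d : ℝ) ≤ 1)
  obtain ⟨l, hll⟩ : ∃ l, l = log (n : ℝ) := ⟨_, rfl⟩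
  rw [← hll] at hl hln hc
  obtain ⟨r, hr⟩ : ∃ r, r = (n : ℝ) ^ (1 / (d : ℝ)) := ⟨_, rfl⟩
  have r3 : log r = l / d := by rw [hr, log_rpow n0, hll]; ring
  rw [← hr] at r1 r2 hc
  have l2 : 1 ≤ l ^ 2 := one_le_pow₀ (by linarith)
  have x1 : 1 ≤ exp 111 * r * l ^ 2 := one_le_mul_of_one_le_of_one_le
    (one_le_mul_of_one_le_of_one_le pe r1) l2
  obtain ⟨L, hL1, hL2⟩ : ∃ L : ℕ, exp 111 * r * l ^ 2 ≤ L ∧ (L : ℝ) ≤ 2 * (exp 111 * r * l ^ 2) :=
    ⟨_, Nat.le_ceil _, by linarith [Nat.ceil_lt_add_one (zero_le_one.trans x1)]⟩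
  have hL3 : (1 : ℝ) ≤ L := x1.trans hL1
  obtain ⟨m, hm⟩ : ∃ m, m = (d + 2) * (d * (d * L) + 1) + d + 1 := ⟨_, rfl⟩
  have m0 : 1 ≤ m := by omega
  have m1 : (m : ℝ) ≤ c2 * r * l ^ 2 := by
    have : (m : ℝ) ≤ c1 * L := by
      rw [hm, hc1]; push_cast; nlinarith [mul_le_mul_of_nonneg_left hL3 (show (0 : ℝ) ≤ 2 * d + 3 by linarith)]
    have := mul_le_mul_of_nonneg_left hL2 (zero_le_one.trans p1)
    rw [hc2]; linarith
  have m2 : (m : ℝ) ≤ c2 * n ^ 3 := by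
    refine m1.trans ?_
    rw [mul_assoc, pow_succ' (n : ℝ) 2]
    gcongr
  obtain ⟨t, ht1, ht2⟩ := exists_t d (A := 2 * m * ((d + 1) * (m * n + 1) ^ (d + 1)))
    (Nat.one_le_iff_ne_zero.2 (by positivity))
  have a1 : ((2 * m * ((d + 1) * (m * n + 1) ^ (d + 1)) : ℕ) : ℝ) ≤ c3 * n ^ (4 * d + 7) := by
    have : (m : ℝ) * n + 1 ≤ 2 * c2 * n ^ 4 := by
      have h1 : (m : ℝ) * n ≤ c2 * n ^ 3 * n := by gcongr
      have h2 : 1 ≤ c2 * n ^ 4 := one_le_mul_of_one_le_of_one_le p2 (one_le_pow₀ n2)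
      nlinarith
    push_cast
    calc _ ≤ 2 * (c2 * n ^ 3) * ((d + 1) * (2 * c2 * n ^ 4) ^ (d + 1)) := by gcongr
      _ = _ := by rw [hc3]; ring
  have t1 : (t : ℝ) ≤ c4 * l := by
    have := log_le_log (by positivity) a1
    rw [log_mul p3.ne' (by positivity), log_pow, ← hll] at this
    have h2 := log_le_sub_one_of_pos p3
    have h3 : c3 * 1 ≤ c3 * l := by gcongr; linarith
    have h4 : log ((2 * m * ((d + 1) * (m * n + 1) ^ (d + 1)) : ℕ) : ℝ) ≤ (c3 + (4 * d + 7)) * l := by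
      push_cast at this ⊢; linarith
    have := mul_le_mul_of_nonneg_left h4 (show (0 : ℝ) ≤ d + 2 by positivity)
    rw [hc4]; linarith
  have s1 : (((d + 2) ^ 2 ^ (d + 2)) ^ t) ^ m * (d + 2) ≤ S.card := by
    have h1 : log ((d : ℝ) + 2) ≤ d + 2 := by linarith [log_le_sub_one_of_pos (show (0 : ℝ) < d + 2 by positivity)]
    have h2 : log ((((((d : ℝ) + 2) ^ 2 ^ (d + 2)) ^ t) ^ m * (d + 2))) ≤
        (c4 * c2 * 2 ^ (d + 2) * (d + 2) + (d + 2)) * r * l ^ 3 := by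
      rw [log_mul (by positivity) (by positivity), log_pow, log_pow, log_pow]
      push_cast
      have h3 : (m : ℝ) * (t * (2 ^ (d + 2) * log (d + 2))) ≤
          (c2 * r * l ^ 2) * (c4 * l * (2 ^ (d + 2) * (d + 2))) := by
        have : 0 ≤ log ((d : ℝ) + 2) := log_nonneg (by linarith)
        gcongr
      have h4 : ((d : ℝ) + 2) * 1 ≤ (d + 2) * (r * l ^ 3) := by
        gcongr; exact one_le_mul_of_one_le_of_one_le r1 (one_le_pow₀ (by linarith))
      linarith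
    have := ((log_le_iff_le_exp (by positivity)).1 h2).trans hc
    exact_mod_cast this
  have := core hE hS hM s1 (by simpa only [mul_assoc] using ht1) (L := L) (by exact_mod_cast hL3)
    (by exact_mod_cast n0) hm.ge (u := 1 / l) (by positivity)
    (one_div_le_one_div_of_le (by norm_num) hl)
  rw [← hll] at this
  refine numeric hd hl ?_ this
  have := log_le_log (by positivity) hL1
  rw [log_mul (by positivity) (by positivity), log_mul (by positivity) (by positivity), log_exp,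
    log_pow, r3] at this
  exact_mod_cast this

end Pool.Agent.P.MP_358d01_co.H5
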