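import Mathlib

set_option autoImplicit false

namespace Pool.Agent.P.MP_358d01_co.H5

open Finset Module

variable {E : Type} [NormedAddCommGroup E] [InnerProductSpace ℝ E] [FiniteDimensional ℝ E]

lemma exists_fun {V κ : Type} [AddCommGroup V] [Module ℝ V] [Fintype κ] (v : κ → V)
    (h : Fintype.card κ < finrank ℝ V) : ∃ f : V →ₗ[ℝ] ℝ, f ≠ 0 ∧ ∀ k, f (v k) = 0 := by
  have h1 : Submodule.span ℝ (Set.range v) < ⊤ := by
    rw [lt_top_iff_ne_top]
    intro h2
    have := finrank_range_le_card (R := ℝ) v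
    rw [Set.finrank, h2, finrank_top] at this
    omega
  obtain ⟨f, hf, hle⟩ := Submodule.exists_le_ker_of_lt_top _ h1
  exact ⟨f, hf, fun k => hle (Submodule.subset_span ⟨k, rfl⟩)⟩

lemma eq_zero_of_indep {V κ : Type} [AddCommGroup V] [Module ℝ V] [FiniteDimensional ℝ V] [Fintype κ]
    {v : κ → V} (hv : LinearIndependent ℝ v) (h : finrank ℝ V ≤ Fintype.card κ) {f : V →ₗ[ℝ] ℝ}
    (hf : ∀ k, f (v k) = 0) : f = 0 := by
  have h1 : Submodule.span ℝ (Set.range v) = ⊤ := by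
    apply Submodule.eq_top_of_finrank_eq
    have := linearIndependent_iff_card_eq_finrank_span.1 hv
    have h2 := Submodule.finrank_le (Submodule.span ℝ (Set.range v))
    rw [Set.finrank] at this
    omega
  apply LinearMap.ker_eq_top.1
  rw [eq_top_iff, ← h1, Submodule.span_le]
  rintro _ ⟨k, rfl⟩; exact hf k

lemma exists_rel {κ : Type} [Fintype κ] (y : κ → E) (h : finrank ℝ E + 1 ≤ Fintype.card κ)
    {f : E →ₗ[ℝ] ℝ} (hf : f ≠ 0) {c : ℝ} (hc : ∀ k, f (y k) = c) :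
    ∃ μ : κ → ℝ, ∑ k, μ k = 0 ∧ ∑ k, μ k • y k = 0 ∧ ∃ k, μ k ≠ 0 := by
  have : ¬ LinearIndependent ℝ (fun k => ((y k, 1) : E × ℝ)) := by
    intro hv
    have := eq_zero_of_indep hv (by simpa using h)
      (f := f ∘ₗ LinearMap.fst ℝ E ℝ - c • LinearMap.snd ℝ E ℝ) (fun k => by simp [hc])
    apply hf
    ext x
    simpa using LinearMap.congr_fun this (x, 0)
  obtain ⟨μ, h1, h2⟩ := Fintype.not_linearIndependent_iff.1 this
  refine ⟨μ, ?_, ?_, h2⟩
  · simpa [Prod.snd_sum] using congrArg Prod.snd h1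
  · simpa [Prod.fst_sum] using congrArg Prod.fst h1

/-- every hyperplane carries at most `finrank` points of `S`. -/
def GP (S : Finset E) : Prop :=
  ∀ f : E →ₗ[ℝ] ℝ, f ≠ 0 → ∀ c : ℝ, (S.filter fun y => f y = c).card ≤ finrank ℝ E

lemma gp_of_affine {S : Finset E} (h : ∀ T ⊆ S, T.card ≤ finrank ℝ E + 1 →
    AffineIndependent ℝ (fun x : (T : Set E) => (x : E))) : GP S := by
  intro f hf c
  by_contra hc
  obtain ⟨T, hT, hcard⟩ := exists_subset_card_eq (show finrank ℝ E + 1 ≤ _ from not_le.1 hc)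
  have hi := h T (hT.trans (filter_subset _ _)) hcard.le
  obtain ⟨μ, h1, h2, k, hk⟩ := exists_rel (fun x : (T : Set E) => (x : E)) (by simp [hcard]) hf
    (c := c) (fun k => (mem_filter.1 (hT k.2)).2)
  exact hk (affineIndependent_iff.1 hi univ μ h1 h2 k (mem_univ k))

omit [FiniteDimensional ℝ E] in
lemma hull_lt {f : E →ₗ[ℝ] ℝ} {c : ℝ} {A : Set E} (h : ∀ y ∈ A, f y < c) {x : E}
    (hx : x ∈ convexHull ℝ A) : f x < c :=
  convexHull_min (t := {y | f y < c}) h (convex_halfSpace_lt f.isLinear c) hx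

omit [FiniteDimensional ℝ E] in
lemma hull_gt {f : E →ₗ[ℝ] ℝ} {c : ℝ} {A : Set E} (h : ∀ y ∈ A, c < f y) {x : E}
    (hx : x ∈ convexHull ℝ A) : c < f x :=
  convexHull_min (t := {y | c < f y}) h (convex_halfSpace_gt f.isLinear c) hx

/-- centerpoint theorem -/
lemma exists_center (A : Finset E) : ∃ o : E, ∀ f : E →ₗ[ℝ] ℝ,
    A.card ≤ (finrank ℝ E + 1) * (A.filter fun p => f o ≤ f p).card := by
  classical
  rcases A.eq_empty_or_nonempty with hA | hA
  · exact ⟨0, fun φ => by simp [hA]⟩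
  let F : Finset (Finset E) := A.powerset.filter fun B => (finrank ℝ E + 1) * (A \ B).card < A.card
  have hH : (⋂ B ∈ F, convexHull ℝ (B : Set E)).Nonempty := by
    apply Convex.helly_theorem' (𝕜 := ℝ) (fun B _ => convex_convexHull ℝ _)
    intro I hI hc
    have hlt : (I.biUnion (fun B => A \ B)).card < A.card := by
      rcases I.eq_empty_or_nonempty with h0 | h0
      · simp [h0, hA.card_pos]
      have h1 : (I.biUnion (fun B => A \ B)).card ≤ ∑ B ∈ I, (A \ B).card := card_biUnion_le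
      have h2 : ∑ B ∈ I, (finrank ℝ E + 1) * (A \ B).card < ∑ _B ∈ I, A.card :=
        sum_lt_sum_of_nonempty h0 (fun B hB => (mem_filter.1 (hI hB)).2)
      rw [← mul_sum, sum_const, smul_eq_mul] at h2
      have h3 : I.card * A.card ≤ (finrank ℝ E + 1) * A.card := Nat.mul_le_mul_right _ hc
      exact lt_of_le_of_lt h1 (lt_of_mul_lt_mul_left (h2.trans_le h3) (Nat.zero_le _))
    obtain ⟨a, ha, hna⟩ := exists_mem_notMem_of_card_lt_card hlt
    refine ⟨a, Set.mem_iInter₂.2 (fun B hB => subset_convexHull ℝ _ ?_)⟩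
    by_contra hB'
    exact hna (mem_biUnion.2 ⟨B, hB, mem_sdiff.2 ⟨ha, hB'⟩⟩)
  obtain ⟨o, ho⟩ := hH
  refine ⟨o, fun f => ?_⟩
  by_contra hc
  have hB : A.filter (fun p => f p < f o) ∈ F := by
    refine mem_filter.2 ⟨mem_powerset.2 (filter_subset _ _), ?_⟩
    have : A \ A.filter (fun p => f p < f o) = A.filter (fun p => f o ≤ f p) := by
      ext p; simp only [mem_sdiff, mem_filter, not_and, not_lt]
      exact ⟨fun h => ⟨h.1, h.2 h.1⟩, fun h => ⟨h.1, fun _ => h.2⟩⟩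
    rw [this]; exact not_le.1 hc
  have h2 := Set.mem_iInter₂.1 ho _ hB
  exact lt_irrefl _ (hull_lt (f := f) (c := f o) (fun a ha => (mem_filter.1 (mem_coe.1 ha)).2) h2)

lemma center_side {S A : Finset E} (hS : GP S) (hA : A ⊆ S) : ∃ o : E, ∀ f : E →ₗ[ℝ] ℝ, f ≠ 0 →
    ∀ c, c ≤ f o → A.card + (finrank ℝ E + 1) ≤
      (finrank ℝ E + 1) * ((A.filter fun p => c < f p).card + (finrank ℝ E + 1)) := by
  classical
  obtain ⟨o, ho⟩ := exists_center A
  refine ⟨o, fun f hf c hc => ?_⟩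
  have h1 : (A.filter fun p => f o ≤ f p) ⊆ (A.filter fun p => c < f p) ∪ S.filter fun p => f p = c := by
    intro p hp
    simp only [mem_filter, mem_union] at hp ⊢
    rcases (hc.trans hp.2).eq_or_lt with h | h
    exacts [Or.inr ⟨hA hp.1, h.symm⟩, Or.inl ⟨hp.1, h⟩]
  have h2 := (card_le_card h1).trans (card_union_le _ _)
  have h3 := hS f hf c
  have h4 := (ho f).trans (Nat.mul_le_mul_left _ (h2.trans (Nat.add_le_add_left h3 _)))
  nlinarith

lemma sep_step {d : ℕ} (hd : finrank ℝ E = d + 1) {S : Finset E} (hS : GP S)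
    (I : Finset (Fin (d + 2))) (A : Fin (d + 2) → Finset E) (hA : ∀ i, A i ⊆ S) :
    ∃ B : Fin (d + 2) → Finset E, (∀ i, B i ⊆ A i) ∧
      (∃ (f : E →ₗ[ℝ] ℝ) (c : ℝ), (∀ i ∈ I, ∀ a ∈ B i, c < f a) ∧ ∀ i ∉ I, ∀ a ∈ B i, f a < c) ∧
      ∀ i, (A i).card + (d + 2) ≤ (d + 2) * ((B i).card + (d + 2)) := by
  classical
  choose o ho using fun i => center_side hS (hA i)
  obtain ⟨f, hf, h0⟩ := exists_fun (fun k : Fin d => o k.succ.succ - o 1) (by simp [hd])
  have h1 : ∀ i, i ≠ 0 → f (o i) = f (o 1) := by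
    intro i hi
    obtain ⟨i, rfl⟩ := Fin.exists_succ_eq.2 hi
    refine Fin.cases rfl (fun k => ?_) i
    have := h0 k
    rwa [map_sub, sub_eq_zero] at this
  obtain ⟨g, hg, c, h2, h3⟩ : ∃ g : E →ₗ[ℝ] ℝ, g ≠ 0 ∧ ∃ c, (∀ i ∈ I, c ≤ g (o i)) ∧
      ∀ i ∉ I, g (o i) ≤ c := by
    by_cases h : (0 ∈ I ∧ f (o 1) ≤ f (o 0)) ∨ (0 ∉ I ∧ f (o 0) ≤ f (o 1))
    · refine ⟨f, hf, f (o 1), fun i hi => ?_, fun i hi => ?_⟩
      · by_cases e : i = 0
        · subst e; tauto
        · exact (h1 i e).ge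
      · by_cases e : i = 0
        · subst e; tauto
        · exact (h1 i e).le
    · refine ⟨-f, neg_ne_zero.2 hf, -f (o 1), fun i hi => ?_, fun i hi => ?_⟩
      · by_cases e : i = 0
        · subst e
          have : ¬ f (o 1) ≤ f (o 0) := by tauto
          simp only [LinearMap.neg_apply]; linarith
        · simp [h1 i e]
      · by_cases e : i = 0
        · subst e
          have : ¬ f (o 0) ≤ f (o 1) := by tauto
          simp only [LinearMap.neg_apply]; linarith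
        · simp [h1 i e]
  refine ⟨fun i => if i ∈ I then (A i).filter fun p => c < g p else (A i).filter fun p => -c < (-g) p,
    fun i => by dsimp only; split_ifs <;> exact filter_subset _ _, ⟨g, c, fun i hi a ha => ?_,
    fun i hi a ha => ?_⟩, fun i => ?_⟩
  · simp only [hi, if_true, mem_filter] at ha; exact ha.2
  · simp only [hi, if_false, mem_filter, LinearMap.neg_apply] at ha; linarith [ha.2]
  · by_cases hi : i ∈ I
    · simpa [hi, hd] using ho i g hg c (h2 i hi)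
    · have := ho i (-g) (neg_ne_zero.2 hg) (-c) (by simpa using h3 i hi)
      simpa only [hi, if_false, hd] using this

/-- the hyperplane `f = c` meets the convex hull of `X`. -/
def Cross (f : E →ₗ[ℝ] ℝ) (c : ℝ) (X : Finset E) : Prop := (∃ y ∈ X, f y ≤ c) ∧ ∃ y ∈ X, c ≤ f y

omit [FiniteDimensional ℝ E] in
lemma Cross.mono {f : E →ₗ[ℝ] ℝ} {c : ℝ} {X Y : Finset E} (h : Cross f c X) (hXY : X ⊆ Y) :
    Cross f c Y := ⟨h.1.imp fun _ h => ⟨hXY h.1, h.2⟩, h.2.imp fun _ h => ⟨hXY h.1, h.2⟩⟩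

omit [FiniteDimensional ℝ E] in
lemma Cross.exists_mem {f : E →ₗ[ℝ] ℝ} {c : ℝ} {X : Finset E} (h : Cross f c X) :
    ∃ y ∈ convexHull ℝ (X : Set E), f y = c := by
  obtain ⟨⟨a, ha, h1⟩, b, hb, h2⟩ := h
  have : Convex ℝ (f '' convexHull ℝ (X : Set E)) := (convex_convexHull ℝ _).linear_image f
  exact this.ordConnected.out ⟨a, subset_convexHull ℝ _ ha, rfl⟩ ⟨b, subset_convexHull ℝ _ hb, rfl⟩
    ⟨h1, h2⟩

lemma split_one {d : ℕ} (hd : finrank ℝ E = d + 1) {S : Finset E} (hS : GP S) (X : Finset E)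
    (hX : X ⊆ S) : ∃ B : Fin (d + 2) → Finset E, (∀ i, B i ⊆ X) ∧
      (∀ f : E →ₗ[ℝ] ℝ, f ≠ 0 → ∀ c, ∃ i, ¬ Cross f c (B i)) ∧
      ∀ i, X.card + (d + 2) ≤ (d + 2) ^ 2 ^ (d + 2) * ((B i).card + (d + 2)) := by
  classical
  have key : ∀ T : Finset (Finset (Fin (d + 2))), ∃ B : Fin (d + 2) → Finset E, (∀ i, B i ⊆ X) ∧
      (∀ I ∈ T, ∃ (f : E →ₗ[ℝ] ℝ) (c : ℝ), (∀ i ∈ I, ∀ a ∈ B i, c < f a) ∧
        ∀ i ∉ I, ∀ a ∈ B i, f a < c) ∧
      ∀ i, X.card + (d + 2) ≤ (d + 2) ^ T.card * ((B i).card + (d + 2)) := by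
    intro T
    induction T using Finset.induction_on with
    | empty => exact ⟨fun _ => X, fun _ => Subset.rfl, by simp, by simp⟩
    | insert I T hI ih =>
      obtain ⟨B, hB, hQ, hc⟩ := ih
      obtain ⟨B', hB', hQ', hc'⟩ := sep_step hd hS I B fun i => (hB i).trans hX
      refine ⟨B', fun i => (hB' i).trans (hB i), ?_, fun i => ?_⟩
      · intro I' hI'
        rcases mem_insert.1 hI' with rfl | h
        · exact hQ'
        · obtain ⟨f, c, h1, h2⟩ := hQ I' h
          exact ⟨f, c, fun i hi a ha => h1 i hi a (hB' i ha), fun i hi a ha => h2 i hi a (hB' i ha)⟩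
      · rw [card_insert_of_notMem hI, pow_succ, mul_assoc]
        exact (hc i).trans (Nat.mul_le_mul_left _ (hc' i))
  obtain ⟨B, hB, hQ, hc⟩ := key univ
  refine ⟨B, hB, fun f hf c => ?_, by simpa using hc⟩
  by_contra hcon
  push Not at hcon
  choose y hy hfy using fun i => (hcon i).exists_mem
  obtain ⟨μ, h1, h2, k, hk⟩ := exists_rel y (by simp [hd]) hf hfy
  obtain ⟨g, c', h3, h4⟩ := hQ (univ.filter fun i => 0 < μ i) (mem_univ _)
  have h5 : ∑ i, μ i * (g (y i) - c') = 0 := by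
    have := congrArg g h2
    simp only [map_sum, map_smul, smul_eq_mul, map_zero] at this
    simp only [mul_sub, sum_sub_distrib, this, ← sum_mul, h1]; simp
  have h6 : ∀ i, μ i ≠ 0 → 0 < μ i * (g (y i) - c') := by
    intro i hi
    rcases lt_or_gt_of_ne hi with h | h
    · exact mul_pos_of_neg_of_neg h (sub_neg.2 (hull_lt (h4 i (by simp [h.le])) (hy i)))
    · exact mul_pos h (sub_pos.2 (hull_gt (h3 i (by simp [h])) (hy i)))
  have : 0 < ∑ i, μ i * (g (y i) - c') := sum_pos' (fun i _ => by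
    by_cases hi : μ i = 0
    · simp [hi]
    · exact (h6 i hi).le) ⟨k, mem_univ k, h6 k hk⟩
  linarith

open Classical in
lemma split_many {d : ℕ} (hd : finrank ℝ E = d + 1) {S : Finset E} (hS : GP S) (t : ℕ) :
    ∀ X : Finset E, X ⊆ S → ∃ B : (Fin t → Fin (d + 2)) → Finset E, (∀ a, B a ⊆ X) ∧
      (∀ f : E →ₗ[ℝ] ℝ, f ≠ 0 → ∀ c, (univ.filter fun a => Cross f c (B a)).card ≤ (d + 1) ^ t) ∧
      ∀ a, X.card + (d + 2) ≤ ((d + 2) ^ 2 ^ (d + 2)) ^ t * ((B a).card + (d + 2)) := by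
  induction t with
  | zero =>
    intro X _
    exact ⟨fun _ => X, fun _ => Subset.rfl, fun f _ c => (card_filter_le _ _).trans (by simp), by simp⟩
  | succ t ih =>
    intro X hX
    obtain ⟨A, hA, h1, h2⟩ := split_one hd hS X hX
    choose B hB h3 h4 using fun i => ih (A i) ((hA i).trans hX)
    refine ⟨fun a => B (a 0) (Fin.tail a), fun a => (hB _ _).trans (hA _), fun f hf c => ?_, fun a => ?_⟩
    · obtain ⟨i, hi⟩ := h1 f hf c
      have : (univ.filter fun a : Fin (t + 1) → Fin (d + 2) => Cross f c (B (a 0) (Fin.tail a))) ⊆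
          (univ.erase i).biUnion fun j => (univ.filter fun a => Cross f c (B j a)).image
            fun a => Fin.cons j a := by
        intro a ha
        have ha := (mem_filter.1 ha).2
        refine mem_biUnion.2 ⟨a 0, mem_erase.2 ⟨?_, mem_univ _⟩,
          mem_image.2 ⟨Fin.tail a, mem_filter.2 ⟨mem_univ _, ha⟩, Fin.cons_self_tail a⟩⟩
        rintro rfl; exact hi (ha.mono (hB _ _))
      refine (card_le_card this).trans ((card_biUnion_le_card_mul _ _ ((d + 1) ^ t) fun j _ =>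
        card_image_le.trans (h3 j f hf c)).trans ?_)
      simp [pow_succ, mul_comm]
    · rw [pow_succ', mul_assoc]
      exact (h2 (a 0)).trans (Nat.mul_le_mul_left _ (h4 _ _))

end Pool.Agent.P.MP_358d01_co.H5
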