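import Pool.Agent.P.MP_358d01_co.H5.Split

set_option autoImplicit false
set_option linter.unusedSectionVars false

namespace Pool.Agent.P.MP_358d01_co.H5

open Finset Module

variable {E : Type} [NormedAddCommGroup E] [InnerProductSpace ℝ E] [FiniteDimensional ℝ E]

/-- the determinant as a linear function of the `l`-th vector. -/
noncomputable def phi {D : ℕ} (b : Basis (Fin D) ℝ E) (v : Fin D → E) (l : Fin D) : E →ₗ[ℝ] ℝ :=
  b.det.toMultilinearMap.toLinearMap v l

lemma phi_apply {D : ℕ} (b : Basis (Fin D) ℝ E) (v : Fin D → E) (l : Fin D) (x : E) :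
    phi b v l x = b.det (Function.update v l x) := rfl

lemma exists_G {D : ℕ} (b : Basis (Fin D) ℝ E) : ∃ G : (Fin D → E) → Fin D → E →ₗ[ℝ] ℝ, ∀ v l,
    G v l ≠ 0 ∧ (∀ l', l' ≠ l → G v l (v l') = 0) ∧ (phi b v l ≠ 0 → G v l = phi b v l) := by
  have : ∀ (v : Fin D → E) (l : Fin D), ∃ G : E →ₗ[ℝ] ℝ,
      G ≠ 0 ∧ (∀ l', l' ≠ l → G (v l') = 0) ∧ (phi b v l ≠ 0 → G = phi b v l) := by
    intro v l
    by_cases h : phi b v l = 0
    · obtain ⟨G, h1, h2⟩ := exists_fun (fun k : {k // k ≠ l} => v k) (by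
        have := l.pos
        rw [finrank_eq_card_basis b]; simp; omega)
      exact ⟨G, h1, fun l' hl => h2 ⟨l', hl⟩, fun h' => absurd h h'⟩
    · exact ⟨_, h, fun l' hl => b.det.map_update_self v hl.symm, fun _ => rfl⟩
  choose G hG using this
  exact ⟨G, hG⟩

lemma indep_of_noncross {D : ℕ} (b : Basis (Fin D) ℝ E) {G : (Fin D → E) → Fin D → E →ₗ[ℝ] ℝ}
    (hG : ∀ v l, G v l ≠ 0 ∧ (∀ l', l' ≠ l → G v l (v l') = 0) ∧ (phi b v l ≠ 0 → G v l = phi b v l))
    (x : E) (A : Fin D → Finset E) (hA : ∀ l, (A l).Nonempty)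
    (h : ∀ e : Fin D → E, (∀ l, e l ∈ A l) → ∀ l,
      ¬ Cross (G (Function.update (fun l => x - e l) l 0) l)
        (G (Function.update (fun l => x - e l) l 0) l x) (A l))
    (y : Fin D → E) (hy : ∀ l, y l ∈ convexHull ℝ (A l : Set E)) :
    LinearIndependent ℝ fun l => x - y l := by
  have h1 : ∀ e : Fin D → E, (∀ l, e l ∈ A l) → b.det (fun l => x - e l) ≠ 0 := by
    intro e he h0
    have : ¬ LinearIndependent ℝ fun l => x - e l := by
      intro hi
      have := (Basis.is_basis_iff_det b).1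
        ⟨hi, hi.span_eq_top_of_card_eq_finrank' (finrank_eq_card_basis b).symm⟩
      rw [h0] at this; exact not_isUnit_zero this
    obtain ⟨μ, h2, l, hl⟩ := Fintype.not_linearIndependent_iff.1 this
    apply h e he l
    obtain ⟨-, h3, -⟩ := hG (Function.update (fun l => x - e l) l 0) l
    generalize G (Function.update (fun l => x - e l) l 0) l = g at h3 ⊢
    have h4 := congrArg g h2
    rw [map_sum, map_zero, sum_eq_single l (fun k _ hk => by
      have := h3 k hk
      rw [Function.update_of_ne hk] at this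
      rw [map_smul, this, smul_zero]) (by simp), map_smul, smul_eq_zero, map_sub] at h4
    have h5 : g (e l) = g x := by
      rcases h4 with h4 | h4
      · exact absurd h4 hl
      · linarith
    exact ⟨⟨_, he l, h5.le⟩, _, he l, h5.ge⟩
  have hu : ∀ (e : Fin D → E) (l : Fin D) (z : E), (fun k => x - Function.update e l z k) =
      Function.update (fun l => x - e l) l (x - z) := fun e l z =>
    Function.comp_update (fun p => x - p) e l z
  have h2 : ∀ e : Fin D → E, (∀ l, e l ∈ A l) → ∀ l, ∀ z ∈ A l,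
      0 < b.det (fun l => x - e l) * b.det (fun k => x - Function.update e l z k) := by
    intro e he l z hz
    have e1 : ∀ z, phi b (Function.update (fun l => x - e l) l 0) l (x - z) =
        b.det (fun k => x - Function.update e l z k) := fun z => by
      rw [phi_apply, Function.update_idem, hu]
    have e2 := e1 (e l)
    rw [Function.update_eq_self] at e2
    have h3 := h e he l
    rw [(hG _ l).2.2 (fun h0 => h1 e he (by rw [← e2, h0]; rfl))] at h3
    rw [← e2, ← e1 z, map_sub, map_sub]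
    generalize phi b (Function.update (fun l => x - e l) l 0) l = g at h3 ⊢
    rcases not_and_or.1 h3 with h3 | h3 <;> push Not at h3
    · exact mul_pos_of_neg_of_neg (sub_neg.2 (h3 _ (he l))) (sub_neg.2 (h3 _ hz))
    · exact mul_pos (sub_pos.2 (h3 _ (he l))) (sub_pos.2 (h3 _ hz))
  choose e0 he0 using hA
  have h3 : ∀ T : Finset (Fin D), ∀ e : Fin D → E, (∀ l, e l ∈ A l) → (∀ l ∉ T, e l = e0 l) →
      0 < b.det (fun l => x - e0 l) * b.det (fun l => x - e l) := by
    intro T
    induction T using Finset.induction_on with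
    | empty =>
      intro e _ h'
      obtain rfl : e = e0 := funext fun l => h' l (notMem_empty l)
      exact mul_self_pos.2 (h1 _ he0)
    | insert l T hl ih =>
      intro e he h'
      have a1 := ih (Function.update e l (e0 l)) (fun k => by
        by_cases hk : k = l
        · subst hk; simpa using he0 k
        · simpa [hk] using he k) (fun k hk => by
        by_cases hk' : k = l
        · subst hk'; simp
        · rw [Function.update_of_ne hk']; exact h' k (by simp [hk, hk']))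
      have a2 := h2 e he l (e0 l) (he0 l)
      have a3 := mul_pos a1 a2
      by_contra a4
      nlinarith [mul_self_nonneg (b.det (fun k => x - Function.update e l (e0 l) k))]
  have h4 : ∀ T : Finset (Fin D), ∀ y : Fin D → E, (∀ l, y l ∈ convexHull ℝ (A l : Set E)) →
      (∀ l ∉ T, y l ∈ A l) → 0 < b.det (fun l => x - e0 l) * b.det (fun l => x - y l) := by
    intro T
    induction T using Finset.induction_on with
    | empty => exact fun y _ h' => h3 univ y (fun l => h' l (notMem_empty l)) (by simp)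
    | insert l T hl ih =>
      intro y hy h'
      have a1 : ∀ z, (b.det (fun l => x - e0 l) • phi b (fun l => x - y l) l) (x - z) =
          b.det (fun l => x - e0 l) * b.det (fun k => x - Function.update y l z k) := fun z => by
        rw [hu]; rfl
      have a2 := a1 (y l)
      rw [Function.update_eq_self] at a2
      rw [← a2, map_sub, sub_pos]
      refine hull_lt (fun z hz => ?_) (hy l)
      rw [← sub_pos, ← map_sub, a1]
      refine ih _ (fun k => ?_) fun k hk => ?_
      · by_cases hk : k = l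
        · subst hk; simpa using subset_convexHull ℝ _ hz
        · simpa [hk] using hy k
      · by_cases hk' : k = l
        · subst hk'; simpa using hz
        · rw [Function.update_of_ne hk']; exact h' k (by simp [hk, hk'])
  by_contra hc
  have := h4 univ y hy (by simp)
  rw [b.det.map_linearDependent _ hc, mul_zero] at this
  exact lt_irrefl _ this

/-- any `finrank` vectors taken from distinct sets are independent. -/
def Sep {I : Type} (K : I → Set E) : Prop :=
  ∀ j : Fin (finrank ℝ E) → I, Function.Injective j → ∀ v : I → E, (∀ i, v i ∈ K i) →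
    LinearIndependent ℝ fun l => v (j l)

lemma Sep.sub {I : Type} {K : I → Set E} (h : Sep K) {v : I → E} (hv : ∀ i, v i ∈ K i) {T : Finset I}
    (hT : T.card = finrank ℝ E) : LinearIndependent ℝ fun i : T => v i := by
  have := h (fun l => ((T.equivFinOfCardEq hT).symm l : I))
    (Subtype.val_injective.comp (Equiv.injective _)) v hv
  exact (linearIndependent_equiv (T.equivFinOfCardEq hT).symm).1 this

lemma Sep.rel {I : Type} [Fintype I] {K : I → Set E} (h : Sep K) (hI : finrank ℝ E ≤ Fintype.card I)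
    {v : I → E} (hv : ∀ i, v i ∈ K i) {T : Finset I} (hT : T.card ≤ finrank ℝ E) {μ : I → ℝ}
    (h0 : ∑ i ∈ T, μ i • v i = 0) : ∀ i ∈ T, μ i = 0 := by
  classical
  obtain ⟨T', h1, h2⟩ := exists_superset_card_eq hT hI
  have h3 : LinearIndepOn ℝ v (T : Set I) := LinearIndepOn.mono (h.sub hv h2) h1
  exact linearIndepOn_finset_iff.1 h3 μ h0

lemma Sep.span {I : Type} {K : I → Set E} (h : Sep K) {v : I → E} (hv : ∀ i, v i ∈ K i) {T : Finset I}
    (hT : T.card = finrank ℝ E) (u : E) : ∃ a : I → ℝ, ∑ i ∈ T, a i • v i = u := by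
  have h1 := (h.sub hv hT).span_eq_top_of_card_eq_finrank' (by simp [hT])
  have h2 : u ∈ Submodule.span ℝ (v '' (T : Set I)) := by
    rw [Set.image_eq_range]; exact h1 ▸ Submodule.mem_top
  exact (Submodule.mem_span_image_finset_iff_exists_fun' ℝ).1 h2

lemma no_rel {I : Type} [Fintype I] {K : I → Set E} (hK : ∀ i, Convex ℝ (K i)) (h : Sep K)
    (hI : finrank ℝ E ≤ Fintype.card I) {z : I → E} (hz : ∀ i, z i ∈ K i) {w : E →ₗ[ℝ] ℝ}
    {J : Finset I} (hJ : J.card ≤ finrank ℝ E) (hw0 : ∀ i, 0 ≤ w (z i)) (hw : ∀ i ∉ J, 0 < w (z i))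
    (μ : I → ℝ) (v : I → E) (hμ : ∀ i, 0 ≤ μ i) (hv : ∀ i, v i ∈ K i) (h0 : ∑ i, μ i • v i = 0) :
    ∀ i, μ i = 0 := by
  classical
  generalize hn : (univ.filter fun i => μ i ≠ 0).card +
    (univ.filter fun i => μ i ≠ 0 ∧ v i ≠ z i).card = n
  induction n using Nat.strong_induction_on generalizing μ v with
  | _ n ih =>
  obtain ⟨T, hT⟩ : ∃ T, T = univ.filter fun i => μ i ≠ 0 := ⟨_, rfl⟩
  have hmem : ∀ i, i ∈ T ↔ μ i ≠ 0 := by simp [hT]
  have hsum : ∑ i ∈ T, μ i • v i = 0 := by
    rw [← h0]; exact sum_subset (subset_univ _) fun i _ hi => by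
      rw [not_not.1 (mt (hmem i).2 hi), zero_smul]
  by_cases h1 : T.card ≤ finrank ℝ E
  · intro i
    by_contra hi
    exact hi (h.rel hI hv h1 hsum i ((hmem i).2 hi))
  exfalso
  by_cases h2 : ∀ i ∈ T, v i = z i
  · obtain ⟨k, hk, hkJ⟩ := exists_mem_notMem_of_card_lt_card (show J.card < T.card by omega)
    have h3 := congrArg w hsum
    rw [map_sum, map_zero] at h3
    have : 0 < ∑ i ∈ T, w (μ i • v i) := sum_pos' (fun i hi => by
      rw [map_smul, h2 i hi]; exact mul_nonneg (hμ i) (hw0 i)) ⟨k, hk, by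
      rw [map_smul, h2 k hk]; exact mul_pos ((hμ k).lt_of_ne' ((hmem k).1 hk)) (hw k hkJ)⟩
    linarith
  push Not at h2
  obtain ⟨k, hk, hkz⟩ := h2
  have hk0 : 0 < μ k := (hμ k).lt_of_ne' ((hmem k).1 hk)
  obtain ⟨R, hR, hRc⟩ := exists_subset_card_eq
    (show finrank ℝ E ≤ (T.erase k).card by rw [card_erase_of_mem hk]; omega)
  have hkR : k ∉ R := fun h => (mem_erase.1 (hR h)).1 rfl
  obtain ⟨a, ha⟩ := h.span hv hRc (z k - v k)
  obtain ⟨s, hs0, hs1, hs2, hs3⟩ : ∃ s : ℝ, 0 < s ∧ s ≤ μ k ∧ (∀ i ∈ R, s * a i ≤ μ i) ∧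
      (s = μ k ∨ ∃ i ∈ R, s * a i = μ i) := by
    by_cases h3 : ∀ i ∈ R, μ k * a i ≤ μ i
    · exact ⟨μ k, hk0, le_rfl, h3, Or.inl rfl⟩
    push Not at h3
    obtain ⟨j, hj, hj'⟩ := h3
    have hja : 0 < a j := by
      by_contra hc; nlinarith [hμ j]
    obtain ⟨i, hi, hmin⟩ := (R.filter fun i => 0 < a i).exists_min_image (fun i => μ i / a i)
      ⟨j, mem_filter.2 ⟨hj, hja⟩⟩
    obtain ⟨hi1, hi2⟩ := mem_filter.1 hi
    have hi3 : 0 < μ i := (hμ i).lt_of_ne' ((hmem i).1 (mem_erase.1 (hR hi1)).2)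
    refine ⟨μ i / a i, by positivity, ?_, fun l hl => ?_, Or.inr ⟨i, hi1, by field_simp⟩⟩
    · refine (hmin j (mem_filter.2 ⟨hj, hja⟩)).trans ?_
      rw [div_le_iff₀ hja]; exact hj'.le
    · by_cases hl' : 0 < a l
      · exact (le_div_iff₀ hl').1 (hmin l (mem_filter.2 ⟨hl, hl'⟩))
      · have : 0 < μ i / a i := by positivity
        nlinarith [hμ l]
  obtain ⟨μ', hμ'⟩ : ∃ μ' : I → ℝ, ∀ i, μ' i = μ i - if i ∈ R then s * a i else 0 := ⟨_, fun _ => rfl⟩
  obtain ⟨v', hv'⟩ : ∃ v', v' = Function.update v k (v k + (s / μ k) • (z k - v k)) := ⟨_, rfl⟩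
  have hsupp : ∀ i, μ' i ≠ 0 → μ i ≠ 0 := by
    intro i hi hi'
    have : i ∉ R := fun h => (hmem i).1 (mem_erase.1 (hR h)).2 hi'
    exact hi (by rw [hμ', if_neg this, hi', sub_zero])
  have hb : ∀ i, μ' i ≠ 0 ∧ v' i ≠ z i → μ i ≠ 0 ∧ v i ≠ z i := by
    intro i hi
    refine ⟨hsupp i hi.1, ?_⟩
    by_cases hik : i = k
    · exact hik ▸ hkz
    · have := hi.2; rwa [hv', Function.update_of_ne hik] at this
  have c1 : (univ.filter fun i => μ' i ≠ 0) ⊆ univ.filter fun i => μ i ≠ 0 :=
    monotone_filter_right _ fun i _ => hsupp i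
  have c2 : (univ.filter fun i => μ' i ≠ 0 ∧ v' i ≠ z i) ⊆ univ.filter fun i => μ i ≠ 0 ∧ v i ≠ z i :=
    monotone_filter_right _ fun i _ => hb i
  have := ih _ ?_ μ' v' ?_ ?_ ?_ rfl k
  · rw [hμ', if_neg hkR, sub_zero] at this; exact hk0.ne' this
  · rw [← hn]
    rcases hs3 with hs3 | ⟨i, hi, hs3⟩
    · refine Nat.add_lt_add_of_le_of_lt (card_le_card c1) (card_lt_card ⟨c2, fun h => ?_⟩)
      have := (mem_filter.1 (h (mem_filter.2 ⟨mem_univ k, hk0.ne', hkz⟩))).2.2
      apply this
      rw [hv', Function.update_self, hs3, div_self hk0.ne', one_smul, add_sub_cancel]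
    · refine Nat.add_lt_add_of_lt_of_le (card_lt_card ⟨c1, fun h => ?_⟩) (card_le_card c2)
      have := (mem_filter.1 (h (mem_filter.2 ⟨mem_univ i, (hmem i).1 (mem_erase.1 (hR hi)).2⟩))).2
      apply this
      rw [hμ', if_pos hi, hs3, sub_self]
  · intro i
    rw [hμ']; split_ifs with hi
    · linarith [hs2 i hi]
    · simpa using hμ i
  · intro i
    by_cases hik : i = k
    · subst hik
      rw [hv', Function.update_self]
      exact (hK i).add_smul_sub_mem (hv i) (hz i)
        ⟨by positivity, div_le_one_of_le₀ hs1 hk0.le⟩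
    · rw [hv', Function.update_of_ne hik]; exact hv i
  · have e1 : ∀ i, μ' i • v' i = μ i • v i - (if i ∈ R then s • (a i • v i) else 0)
        + if i = k then s • (z k - v k) else 0 := by
      intro i
      by_cases hik : i = k
      · subst hik
        rw [hv', hμ', Function.update_self, if_neg hkR, if_neg hkR, if_pos rfl, sub_zero, sub_zero,
          smul_add, smul_smul, mul_div_cancel₀ _ hk0.ne']
      · rw [hv', hμ', Function.update_of_ne hik, if_neg hik, add_zero, sub_smul]
        split_ifs <;> simp [smul_smul]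
    simp only [e1, sum_add_distrib, sum_sub_distrib, h0, sum_ite_mem, univ_inter, ← smul_sum, ha]
    simp

lemma thick {I : Type} [Fintype I] (X : I → Finset E) {K : I → Set E} (hK : ∀ i, Convex ℝ (K i))
    (hX : ∀ i, ∀ y ∈ X i, y ∈ K i) {z : I → E} (hz : ∀ i, z i ∈ K i)
    (h : ∀ (μ : I → ℝ) (v : I → E), (∀ i, 0 ≤ μ i) → (∀ i, v i ∈ K i) → ∑ i, μ i • v i = 0 →
      ∀ i, μ i = 0) : ∃ w : E →ₗ[ℝ] ℝ, ∀ i, ∀ y ∈ X i, 0 < w y := by
  classical
  let Q : Set E := {u | ∃ (μ : I → ℝ) (v : I → E), (∀ i, 0 ≤ μ i) ∧ ∑ i, μ i = 1 ∧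
    (∀ i, v i ∈ K i) ∧ ∑ i, μ i • v i = u}
  have hQ : Convex ℝ Q := by
    rintro _ ⟨μ, v, h1, h2, h3, rfl⟩ _ ⟨μ', v', h1', h2', h3', rfl⟩ a b ha hb hab
    choose u hu hu' using fun i => (hK i).exists_mem_add_smul_eq (h3 i) (h3' i)
      (mul_nonneg ha (h1 i)) (mul_nonneg hb (h1' i))
    refine ⟨fun i => a * μ i + b * μ' i, u,
      fun i => add_nonneg (mul_nonneg ha (h1 i)) (mul_nonneg hb (h1' i)), ?_, hu, ?_⟩
    · rw [sum_add_distrib, ← mul_sum, ← mul_sum, h2, h2']; linarith
    · simp only [hu', sum_add_distrib, smul_sum, smul_smul]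
  have h1 : convexHull ℝ ((univ.biUnion X : Finset E) : Set E) ⊆ Q := by
    refine convexHull_min (fun y hy => ?_) hQ
    obtain ⟨i, -, hi⟩ := mem_biUnion.1 (mem_coe.1 hy)
    refine ⟨fun j => if j = i then 1 else 0, Function.update z i y, fun j => by positivity, by simp,
      fun j => ?_, by simp⟩
    by_cases hj : j = i
    · subst hj; simpa using hX j y hi
    · simpa [hj] using hz j
  have h2 : (0 : E) ∉ convexHull ℝ ((univ.biUnion X : Finset E) : Set E) := by
    intro h0
    obtain ⟨μ, v, a1, a2, a3, a4⟩ := h1 h0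
    simp [h μ v a1 a3 a4] at a2
  obtain ⟨f, u, h3, h4⟩ := geometric_hahn_banach_point_closed (convex_convexHull ℝ _)
    ((Finset.finite_toSet _).isClosed_convexHull ℝ) h2
  refine ⟨f, fun i y hy => ?_⟩
  have := h4 y (subset_convexHull ℝ _ (mem_coe.2 (mem_biUnion.2 ⟨i, mem_univ _, hy⟩)))
  rw [map_zero] at h3
  exact h3.trans this

end Pool.Agent.P.MP_358d01_co.H5
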