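import Pool.Agent.P.MP_358d01_co.H5.Thick
import Pool.Agent.P.MP_358d01_co.H5.Dom

set_option autoImplicit false
set_option linter.unusedSectionVars false

namespace Pool.Agent.P.MP_358d01_co.H5

open Finset Module

variable {E : Type} [NormedAddCommGroup E] [InnerProductSpace ℝ E] [FiniteDimensional ℝ E]
  [DecidableEq E]

/-- convex position. -/
def Conv (T : Finset E) : Prop := ∀ p ∈ T, p ∉ convexHull ℝ ((T.erase p : Finset E) : Set E)

lemma exists_vertices (W : Finset E) :
    ∃ V ⊆ W, Conv V ∧ (W : Set E) ⊆ convexHull ℝ (V : Set E) := by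
  classical
  obtain ⟨V, hV, hmin⟩ := (W.powerset.filter
    (fun V : Finset E => (W : Set E) ⊆ convexHull ℝ (V : Set E))).exists_min_image card
    ⟨W, mem_filter.2 ⟨mem_powerset_self _, subset_convexHull _ _⟩⟩
  obtain ⟨h1, h2⟩ := mem_filter.1 hV
  refine ⟨V, mem_powerset.1 h1, ?_, h2⟩
  intro p hp hc
  have hsub : (V : Set E) ⊆ convexHull ℝ ((V.erase p : Finset E) : Set E) := by
    intro y hy
    by_cases hyp : y = p
    · rw [hyp]; exact hc
    · exact subset_convexHull _ _ (mem_coe.2 (mem_erase.2 ⟨hyp, hy⟩))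
  have h3 := convexHull_min hsub (convex_convexHull ℝ _)
  have h4 := hmin (V.erase p) (mem_filter.2
    ⟨mem_powerset.2 ((erase_subset _ _).trans (mem_powerset.1 h1)), h2.trans h3⟩)
  rw [card_erase_of_mem hp] at h4
  have := card_pos.2 ⟨p, hp⟩
  omega

lemma count_update {m : ℕ} {α : Type} [Fintype α] [DecidableEq α] (k : Fin m)
    (B : (Fin m → α) → Finset α) (hB : ∀ c a, B (Function.update c k a) = B c) (β : ℕ)
    (hβ : ∀ c, (B c).card ≤ β) :
    (univ.filter fun c : Fin m → α => c k ∈ B c).card * Fintype.card α ≤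
      Fintype.card (Fin m → α) * β := by
  rw [← card_univ (α := α), ← card_product]
  refine le_trans (card_le_card_of_injOn (t := univ.biUnion fun c => (B c).image fun a => (c, a))
    (fun p => (Function.update p.1 k p.2, p.1 k)) ?_ ?_) ?_
  · intro p hp
    have := (mem_filter.1 (mem_product.1 hp).1).2
    exact mem_coe.2 (mem_biUnion.2 ⟨_, mem_univ _, mem_image.2 ⟨p.1 k, by rwa [hB], rfl⟩⟩)
  · rintro ⟨c, a⟩ - ⟨c', a'⟩ - h
    obtain ⟨h1, h2⟩ := Prod.mk.inj h
    dsimp only at h1 h2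
    have h3 : a = a' := by simpa using congrFun h1 k
    refine Prod.ext (funext fun j => ?_) h3
    by_cases hj : j = k
    · rw [hj]; exact h2
    · simpa [hj] using congrFun h1 j
  · exact card_biUnion_le_card_mul _ _ β fun c _ => card_image_le.trans (hβ c)

/-- exchange of the two addresses along a path. -/
def sw {m : ℕ} {α : Type} (σ : Fin m → Bool) (ω : (Fin m → α) × (Fin m → α)) :
    (Fin m → α) × (Fin m → α) :=
  (fun i => if σ i then ω.2 i else ω.1 i, fun i => if σ i then ω.1 i else ω.2 i)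

lemma sw_sw {m : ℕ} {α : Type} (σ : Fin m → Bool) (ω : (Fin m → α) × (Fin m → α)) :
    sw σ (sw σ ω) = ω := by
  ext i <;> cases h : σ i <;> simp [sw, h]

open Classical in
lemma average {m : ℕ} {α : Type} [Fintype α] [Nonempty α] (P : (Fin m → α) → (Fin m → α) → Prop)
    (h : ∀ c, 2 * (univ.filter fun c' => P c c').card ≤ Fintype.card (Fin m → α)) :
    ∃ ω : (Fin m → α) × (Fin m → α),
      2 * (univ.filter fun σ : Fin m → Bool => P (sw σ ω).1 (sw σ ω).2).card ≤ 2 ^ m := by
  have h1 : ∀ σ : Fin m → Bool, ∑ ω : (Fin m → α) × (Fin m → α),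
      2 * (if P (sw σ ω).1 (sw σ ω).2 then 1 else 0) ≤ ∑ _ω : (Fin m → α) × (Fin m → α), 1 := by
    intro σ
    have e : ∑ ω : (Fin m → α) × (Fin m → α), 2 * (if P (sw σ ω).1 (sw σ ω).2 then 1 else 0) = _ :=
      Equiv.sum_comp (Function.Involutive.toPerm _ (sw_sw (α := α) σ))
        (fun ω => 2 * (if P ω.1 ω.2 then 1 else 0))
    rw [e, Fintype.sum_prod_type, Fintype.sum_prod_type]
    refine sum_le_sum fun c _ => ?_
    rw [← mul_sum, ← card_filter]
    simpa using h c
  have h2 := sum_le_sum fun σ (_ : σ ∈ univ) => h1 σ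
  rw [sum_comm] at h2
  nth_rewrite 2 [sum_comm] at h2
  obtain ⟨ω, -, h3⟩ := exists_le_of_sum_le univ_nonempty h2
  refine ⟨ω, ?_⟩
  rw [← mul_sum, ← card_filter] at h3
  simpa using h3

/-- cluster after `i` steps along the address `c`. -/
def cl {m : ℕ} {α : Type} (S : Finset E) (Spl : Finset E → α → Finset E) (c : Fin m → α) :
    ℕ → Finset E
  | 0 => S
  | i + 1 => if h : i < m then Spl (cl S Spl c i) (c ⟨i, h⟩) else cl S Spl c i

lemma cl_congr {m : ℕ} {α : Type} (S : Finset E) (Spl : Finset E → α → Finset E) {c c' : Fin m → α}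
    (i : ℕ) (h : ∀ j : Fin m, (j : ℕ) < i → c j = c' j) : cl S Spl c i = cl S Spl c' i := by
  induction i with
  | zero => rfl
  | succ i ih =>
    rw [cl, cl, ih fun j hj => h j (by omega)]
    split_ifs with hi
    · rw [h ⟨i, hi⟩ (by simp)]
    · rfl

theorem tree {d t m M : ℕ} (hd : finrank ℝ E = d + 1) {S : Finset E} (hS : GP S)
    (hM : ∀ T ⊆ S, Conv T → T.card ≤ M)
    (h1 : (((d + 2) ^ 2 ^ (d + 2)) ^ t) ^ m * (d + 2) ≤ S.card)
    (h2 : 2 * m * ((d + 1) * (m * M + 1) ^ (d + 1) * (d + 1) ^ t) ≤ (d + 2) ^ t) :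
    ∃ (x : (Fin m → Bool) → E) (Sib : (Fin m → Bool) → Fin m → Finset E)
      (Good : Finset (Fin m → Bool)), (∀ σ, x σ ∈ S) ∧
      (∀ σ σ' (j : Fin m), Ext j σ σ' → σ' j ≠ σ j → x σ' ∈ Sib σ j) ∧ 2 ^ m ≤ 2 * Good.card ∧
      ∀ σ ∈ Good, Sep fun j => (fun y => x σ - y) '' convexHull ℝ (Sib σ j : Set E) := by
  classical
  have : ∀ X : Finset E, ∃ B : (Fin t → Fin (d + 2)) → Finset E, X ⊆ S → (∀ a, B a ⊆ X) ∧
      (∀ f : E →ₗ[ℝ] ℝ, f ≠ 0 → ∀ c, (univ.filter fun a => Cross f c (B a)).card ≤ (d + 1) ^ t) ∧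
      ∀ a, X.card + (d + 2) ≤ ((d + 2) ^ 2 ^ (d + 2)) ^ t * ((B a).card + (d + 2)) := by
    intro X
    by_cases hX : X ⊆ S
    · obtain ⟨B, hB⟩ := split_many hd hS t X hX
      exact ⟨B, fun _ => by convert hB⟩
    · exact ⟨fun _ => ∅, fun h => absurd h hX⟩
  choose Spl hSpl using this
  have c1 : ∀ (c : Fin m → Fin t → Fin (d + 2)) i, cl S Spl c i ⊆ S ∧ S.card + (d + 2) ≤
      (((d + 2) ^ 2 ^ (d + 2)) ^ t) ^ i * ((cl S Spl c i).card + (d + 2)) := by
    intro c i
    induction i with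
    | zero => simp [cl]
    | succ i ih =>
      rw [cl]
      split_ifs with hi
      · refine ⟨((hSpl _ ih.1).1 _).trans ih.1, ih.2.trans ?_⟩
        rw [pow_succ _ i, mul_assoc]
        exact Nat.mul_le_mul_left _ ((hSpl _ ih.1).2.2 _)
      · exact ⟨ih.1, ih.2.trans (Nat.mul_le_mul_right _
          (Nat.pow_le_pow_right (by positivity) (Nat.le_succ i)))⟩
  have c2 : ∀ (c : Fin m → Fin t → Fin (d + 2)) i j, i ≤ j → cl S Spl c j ⊆ cl S Spl c i := by
    intro c i j hij
    induction j, hij using Nat.le_induction with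
    | base => exact Subset.rfl
    | succ j _ ih =>
      refine Subset.trans ?_ ih
      rw [cl]
      split_ifs
      exacts [(hSpl _ (c1 c j).1).1 _, Subset.rfl]
  have c3 : ∀ c : Fin m → Fin t → Fin (d + 2), ∃ y, y ∈ cl S Spl c m := by
    intro c
    by_contra hc
    have := (c1 c m).2
    rw [eq_empty_of_forall_notMem (not_exists.1 hc)] at this
    simp only [card_empty, zero_add] at this
    omega
  choose x hx using c3
  choose V hV1 hV2 hV3 using fun W : Finset E => exists_vertices W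
  obtain ⟨G, hG⟩ := exists_G (finBasis ℝ E)
  obtain ⟨B, hB⟩ : ∃ B : (Fin m → Fin t → Fin (d + 2)) → Fin m → (Fin m → Fin t → Fin (d + 2)) →
      Finset (Fin t → Fin (d + 2)), ∀ c k c', B c k c' =
      (univ ×ˢ Fintype.piFinset fun _ : Fin (finrank ℝ E) => insert 0 (((univ.erase k).biUnion
        fun j => V (Spl (cl S Spl c j) (c' j))).image fun y => x c - y)).biUnion
      fun p => univ.filter fun a => Cross (G p.2 p.1) (G p.2 p.1 (x c)) (Spl (cl S Spl c k) a) :=
    ⟨_, fun _ _ _ => rfl⟩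
  have b1 : ∀ c k c' a, B c k (Function.update c' k a) = B c k c' := by
    intro c k c' a
    rw [hB, hB, biUnion_congr (s₂ := univ.erase k) rfl fun j hj => by
      rw [Function.update_of_ne (mem_erase.1 hj).1]]
  have b2 : ∀ c k c', (B c k c').card ≤ (d + 1) * (m * M + 1) ^ (d + 1) * (d + 1) ^ t := by
    intro c k c'
    rw [hB]
    refine (card_biUnion_le_card_mul _ _ ((d + 1) ^ t) fun p _ =>
      (hSpl _ (c1 c k).1).2.1 _ (hG _ _).1 _).trans (Nat.mul_le_mul_right _ ?_)
    rw [card_product, Fintype.card_piFinset, prod_const, card_univ, Fintype.card_fin, hd]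
    refine Nat.mul_le_mul_left _ (Nat.pow_le_pow_left ?_ _)
    refine (card_insert_le _ _).trans (Nat.add_le_add_right (card_image_le.trans ?_) 1)
    refine le_trans (card_biUnion_le_card_mul _ _ M fun j _ => ?_) (Nat.mul_le_mul_right _ ?_)
    · exact hM _ ((hV1 _).trans (((hSpl _ (c1 c j).1).1 _).trans (c1 c j).1)) (hV2 _)
    · exact (card_le_univ _).trans (by simp)
  obtain ⟨ω, hω⟩ := average (m := m) (fun c c' => ∃ k, c' k ∈ B c k c') (fun c => by
    have e1 : (univ.filter fun c' => ∃ k, c' k ∈ B c k c') ⊆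
        univ.biUnion fun k => univ.filter fun c' => c' k ∈ B c k c' := by
      intro c' hc'
      obtain ⟨k, hk⟩ := (mem_filter.1 hc').2
      exact mem_biUnion.2 ⟨k, mem_univ _, mem_filter.2 ⟨mem_univ _, hk⟩⟩
    have e2 := (card_le_card e1).trans card_biUnion_le
    have e3 := sum_le_sum fun k (_ : k ∈ univ) => count_update k (B c k) (b1 c k) _ (b2 c k)
    rw [← sum_mul, sum_const, card_univ, Fintype.card_fin, smul_eq_mul] at e3
    have e4 : Fintype.card (Fin t → Fin (d + 2)) = (d + 2) ^ t := by simp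
    rw [e4] at e3
    have e5 : 0 < (d + 2) ^ t := by positivity
    refine le_of_mul_le_mul_right ?_ e5
    calc _ ≤ 2 * (m * (Fintype.card (Fin m → Fin t → Fin (d + 2)) *
          ((d + 1) * (m * M + 1) ^ (d + 1) * (d + 1) ^ t))) := by
          rw [mul_assoc]
          refine Nat.mul_le_mul_left _ (le_trans (Nat.mul_le_mul_right _ ?_) e3)
          exact le_trans (le_of_eq (by congr)) e2
      _ = Fintype.card (Fin m → Fin t → Fin (d + 2)) *
          (2 * m * ((d + 1) * (m * M + 1) ^ (d + 1) * (d + 1) ^ t)) := by ring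
      _ ≤ _ := Nat.mul_le_mul_left _ h2)
  refine ⟨fun σ => x (sw σ ω).1, fun σ j => Spl (cl S Spl (sw σ ω).1 j) ((sw σ ω).2 j),
    univ.filter fun σ => ¬ ∃ k, (sw σ ω).2 k ∈ B (sw σ ω).1 k (sw σ ω).2,
    fun σ => (c1 _ m).1 (hx _), fun σ σ' j e1 e2 => ?_, ?_, fun σ hσ => ?_⟩
  · have := c2 (sw σ' ω).1 (j + 1) m j.2 (hx _)
    rw [cl, dif_pos j.2, cl_congr S Spl (c' := (sw σ ω).1) j fun l hl => by simp [sw, e1 l hl]] at this
    convert this using 2
    cases h : σ j <;> cases h' : σ' j <;> simp_all [sw]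
  · have := card_filter_add_card_filter_not (s := (univ : Finset (Fin m → Bool)))
      fun σ => ∃ k, (sw σ ω).2 k ∈ B (sw σ ω).1 k (sw σ ω).2
    simp only [card_univ, Fintype.card_fun, Fintype.card_bool, Fintype.card_fin] at this
    have h3 : 2 * (univ.filter fun σ : Fin m → Bool =>
      ∃ k, (sw σ ω).2 k ∈ B (sw σ ω).1 k (sw σ ω).2).card ≤ 2 ^ m := by convert hω
    omega
  · have hg := not_exists.1 (mem_filter.1 hσ).2
    dsimp only
    generalize (sw σ ω).1 = c at hg ⊢
    generalize (sw σ ω).2 = c' at hg ⊢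
    intro j hj v hv
    choose y hy hy' using hv
    simp only [← hy']
    refine indep_of_noncross (finBasis ℝ E) hG (x c) (fun l => V (Spl (cl S Spl c (j l)) (c' (j l))))
      (fun l => ?_) (fun e he l hc => hg (j l) ?_) (fun l => y (j l))
      fun l => convexHull_min (hV3 _) (convex_convexHull ℝ _) (hy _)
    · have := convexHull_min (hV3 _) (convex_convexHull ℝ _) (hy (j l))
      exact coe_nonempty.1 (convexHull_nonempty_iff.1 ⟨_, this⟩)
    · rw [hB]
      refine mem_biUnion.2 ⟨(l, Function.update (fun l => x c - e l) l 0), mem_product.2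
        ⟨mem_univ _, Fintype.mem_piFinset.2 fun l' => ?_⟩, mem_filter.2 ⟨mem_univ _, hc.mono (hV1 _)⟩⟩
      by_cases hl : l' = l
      · subst hl; simp
      · simp only [Function.update_of_ne hl]
        exact mem_insert_of_mem (mem_image.2 ⟨e l', mem_biUnion.2
          ⟨j l', mem_erase.2 ⟨fun h => hl (hj h), mem_univ _⟩, he l'⟩, rfl⟩)

end Pool.Agent.P.MP_358d01_co.H5
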